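import Mathlib

/- The function field model of the growth of the logarithmic derivative on vertical lines. -/

set_option autoImplicit false

namespace Pool.Agent.MP_d232b3_nt

open Polynomial

/-- `χ` is an Archimedean (short interval) character of conductor at most `q ^ k`: a unimodular
completely multiplicative function on monic polynomials whose value depends only on the degree
and on the `k` coefficients below the leading one. -/
structure IsArchChar {F : Type*} [Field F] (k : ℕ) (χ : F[X] → ℂ) : Prop where
  map_mul : ∀ f g : F[X], f.Monic → g.Monic → χ (f * g) = χ f * χ g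
  norm_eq : ∀ f : F[X], f.Monic → ‖χ f‖ = 1
  depends : ∀ f g : F[X], f.Monic → g.Monic → (f - g).degree + k < f.degree → χ f = χ g

/-- `χ` depends only on the degree: `χ f = θ ^ deg f` on monic polynomials. -/
def IsPrincipal {F : Type*} [Field F] (χ : F[X] → ℂ) : Prop :=
  ∃ θ : ℂ, ∀ f : F[X], f.Monic → χ f = θ ^ f.natDegree

/-- The `L`-function `∑ χ(f) |f| ^ (-s)` over monic `f`, grouped by degree; `|f| = q ^ deg f`. -/
noncomputable def Lfun {F : Type*} [Field F] [Fintype F] (χ : F[X] → ℂ) (s : ℂ) : ℂ :=
  ∑' m : ℕ, (∑ᶠ (f : F[X]) (_ : f.Monic ∧ f.natDegree = m), χ f) *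
    (Fintype.card F : ℂ) ^ (-(m * s))

end Pool.Agent.MP_d232b3_nt
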