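import Mathlib

/- Frobenius orbits and characteristic polynomials over a finite field. -/

set_option autoImplicit false

namespace Pool.Agent.MP_d232b3_nt

open Polynomial Finset
open scoped Classical

variable (F : Type*) [Field F] [Fintype F]

/-- The algebraic closure. -/
abbrev KK := AlgebraicClosure F

/-- The subfield with `q ^ j` elements, as a finite set. -/
noncomputable def VV (j : ℕ) : Finset (KK F) :=
  (X ^ Fintype.card F ^ j - X : (KK F)[X]).roots.toFinset

/-- The first `j` Frobenius conjugates. -/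
noncomputable def orb {A : Type*} [Monoid A] (q : ℕ) (x : A) (j : ℕ) : Multiset A :=
  (Multiset.range j).map fun i => x ^ q ^ i

variable {F}

/-- The characteristic polynomial of `x` as an element of the field with `q ^ j` elements. -/
noncomputable def cc (x : KK F) (j : ℕ) : F[X] := minpoly F x ^ (j / (minpoly F x).natDegree)

theorem card_orb {A : Type*} [Monoid A] (q : ℕ) (x : A) (j : ℕ) : (orb q x j).card = j := by
  simp [orb]

theorem orb_add {A : Type*} [Monoid A] (q : ℕ) (x : A) (i j : ℕ) :
    orb q x (i + j) = orb q x i + orb q (x ^ q ^ i) j := by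
  rw [orb, Multiset.range_add, Multiset.map_add, Multiset.map_map]
  congr 1
  refine Multiset.map_congr rfl fun l _ => ?_
  simp [pow_add, pow_mul]

theorem mem_VV {j : ℕ} (hj : j ≠ 0) {x : KK F} : x ∈ VV F j ↔ x ^ Fintype.card F ^ j = x := by
  rw [VV, Multiset.mem_toFinset,
    mem_roots (FiniteField.X_pow_card_pow_sub_X_ne_zero _ hj Fintype.one_lt_card)]
  simp [sub_eq_zero]

theorem card_VV {j : ℕ} (hj : j ≠ 0) : (VV F j).card = Fintype.card F ^ j := by
  obtain ⟨p, hp⟩ := CharP.exists F
  obtain ⟨n, hpp, hn⟩ := FiniteField.card F p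
  have : CharP (KK F) p := charP_of_injective_algebraMap (algebraMap F (KK F)).injective p
  have hs : (X ^ Fintype.card F ^ j - X : (KK F)[X]).Separable :=
    galois_poly_separable p _ (dvd_pow (by rw [hn]; exact dvd_pow_self p n.ne_zero) hj)
  rw [VV, Multiset.toFinset_card_of_nodup (nodup_roots hs), IsAlgClosed.card_roots_eq_natDegree,
    FiniteField.X_pow_card_pow_sub_X_natDegree_eq _ hj Fintype.one_lt_card]

omit [Fintype F] in
theorem integral (x : KK F) : IsIntegral F x := Algebra.IsIntegral.isIntegral x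

theorem fix_iff (x : KK F) (j : ℕ) :
    x ^ Fintype.card F ^ j = x ↔ (minpoly F x).natDegree ∣ j := by
  rw [(minpoly.irreducible (integral x)).natDegree_dvd_iff_dvd_X_pow_card_pow_sub_X,
    minpoly.dvd_iff, Nat.card_eq_fintype_card]
  simp [sub_eq_zero]

theorem pow_inj (i : ℕ) {x y : KK F} (h : x ^ Fintype.card F ^ i = y ^ Fintype.card F ^ i) :
    x = y := by
  have := ((FiniteField.frobeniusAlgHom F (KK F)) ^ i).toRingHom.injective
  refine this ?_
  simpa [AlgHom.coe_pow, FiniteField.coe_frobeniusAlgHom, pow_iterate] using h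

theorem aeval_pow (x : KK F) (i : ℕ) (f : F[X]) :
    aeval (x ^ Fintype.card F ^ i) f = (aeval x f) ^ Fintype.card F ^ i := by
  have := aeval_algHom_apply ((FiniteField.frobeniusAlgHom F (KK F)) ^ i) x f
  simpa [AlgHom.coe_pow, FiniteField.coe_frobeniusAlgHom, pow_iterate] using this

theorem map_minpoly (x : KK F) :
    (minpoly F x).map (algebraMap F (KK F)) =
      ((orb (Fintype.card F) x (minpoly F x).natDegree).map fun w => X - C w).prod := by
  set d := (minpoly F x).natDegree with hd
  have hm := minpoly.monic (integral x)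
  have hnd : (orb (Fintype.card F) x d).Nodup := by
    refine Multiset.Nodup.map_on ?_ (Multiset.nodup_range d)
    have key : ∀ a b, a < b → b < d → x ^ Fintype.card F ^ a ≠ x ^ Fintype.card F ^ b := by
      intro a b hab hb h
      obtain ⟨c, rfl⟩ := Nat.exists_eq_add_of_lt hab
      have h2 : x ^ Fintype.card F ^ (c + 1) = x := by
        refine pow_inj a ?_
        rw [← pow_mul, ← pow_add, h]
        congr 2
        ring
      have := Nat.le_of_dvd (by omega) ((fix_iff x _).1 h2)
      omega
    intro a ha b hb h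
    rw [Multiset.mem_range] at ha hb
    rcases lt_trichotomy a b with h1 | h1 | h1
    · exact absurd h (key a b h1 hb)
    · exact h1
    · exact absurd h.symm (key b a h1 ha)
  have hle : orb (Fintype.card F) x d ≤ ((minpoly F x).map (algebraMap F (KK F))).roots := by
    rw [Multiset.le_iff_subset hnd]
    intro y hy
    obtain ⟨i, -, rfl⟩ := Multiset.mem_map.1 hy
    rw [mem_roots (hm.map _).ne_zero, IsRoot.def, eval_map_algebraMap, aeval_pow, minpoly.aeval,
      zero_pow (pow_ne_zero _ Fintype.card_ne_zero)]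
  have heq := Multiset.eq_of_le_of_card_le hle (by
    rw [IsAlgClosed.card_roots_eq_natDegree, hm.natDegree_map, card_orb])
  rw [heq]
  exact (prod_multiset_X_sub_C_of_monic_of_roots_card_eq (hm.map _)
    IsAlgClosed.card_roots_eq_natDegree).symm

theorem map_cc {x : KK F} {j : ℕ} (hx : x ^ Fintype.card F ^ j = x) :
    (cc x j).map (algebraMap F (KK F)) =
      ((orb (Fintype.card F) x j).map fun w => X - C w).prod := by
  obtain ⟨e, rfl⟩ := (fix_iff x j).1 hx
  have hd := minpoly.natDegree_pos (integral x)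
  rw [cc, Nat.mul_div_cancel_left _ hd, Polynomial.map_pow]
  clear hx
  induction e with
  | zero => simp [orb]
  | succ e ih =>
    rw [pow_succ, ih, Nat.mul_succ, orb_add, Multiset.map_add, Multiset.prod_add,
      (fix_iff x _).2 (dvd_mul_right _ _), map_minpoly]

omit [Fintype F] in
theorem monic_cc (x : KK F) (j : ℕ) : (cc x j).Monic := (minpoly.monic (integral x)).pow _

theorem natDegree_cc {x : KK F} {j : ℕ} (hx : x ^ Fintype.card F ^ j = x) :
    (cc x j).natDegree = j := by
  rw [cc, (minpoly.monic (integral x)).natDegree_pow, Nat.div_mul_cancel ((fix_iff x j).1 hx)]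

theorem pow_dvd_iff (x : KK F) {f : F[X]} (hf : f ≠ 0) (e : ℕ) :
    minpoly F x ^ e ∣ f ↔ e ≤ rootMultiplicity x (f.map (algebraMap F (KK F))) := by
  have hi := minpoly.irreducible (integral x)
  have hm := minpoly.monic (integral x)
  obtain ⟨a, g, hg, rfl⟩ := WfDvdMonoid.max_power_factor hf hi
  have h1 : rootMultiplicity x ((minpoly F x).map (algebraMap F (KK F))) = 1 := by
    refine le_antisymm (rootMultiplicity_le_one_of_separable
      (PerfectField.separable_of_irreducible hi).map x) ?_
    rw [Nat.one_le_iff_ne_zero, ← Nat.pos_iff_ne_zero, rootMultiplicity_pos (hm.map _).ne_zero,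
      IsRoot.def, eval_map_algebraMap, minpoly.aeval]
  have h2 : ∀ b : ℕ, rootMultiplicity x ((minpoly F x).map (algebraMap F (KK F)) ^ b) = b := by
    intro b
    induction b with
    | zero => simp
    | succ b ih =>
      rw [pow_succ, rootMultiplicity_mul (mul_ne_zero (pow_ne_zero _ (hm.map _).ne_zero)
        (hm.map _).ne_zero), ih, h1]
  have h3 : rootMultiplicity x (g.map (algebraMap F (KK F))) = 0 := by
    refine rootMultiplicity_eq_zero fun h => hg ?_
    rw [IsRoot.def, eval_map_algebraMap] at h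
    exact minpoly.dvd F x h
  have h4 := (Polynomial.map_ne_zero_iff (algebraMap F (KK F)).injective).2 hf
  rw [Polynomial.map_mul, Polynomial.map_pow] at h4 ⊢
  rw [rootMultiplicity_mul h4, h2, h3, add_zero]
  refine ⟨fun h => ?_, fun h => (pow_dvd_pow _ h).mul_right _⟩
  by_contra hlt
  have := (pow_dvd_pow _ (Nat.succ_le_of_lt (not_le.1 hlt))).trans h
  rw [pow_succ, mul_dvd_mul_iff_left (pow_ne_zero _ hm.ne_zero)] at this
  exact hg this

/-- The degree as a count of prime power divisors. -/
theorem degree_count {f : F[X]} (hf : f.Monic) :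
    ∑ j ∈ Icc 1 f.natDegree, ((VV F j).filter fun x => cc x j ∣ f).card = f.natDegree := by
  set R := (f.map (algebraMap F (KK F))).roots.toFinset with hR
  have hf0 := (hf.map (algebraMap F (KK F))).ne_zero
  have h1 : ∀ j ∈ Icc 1 f.natDegree, ((VV F j).filter fun x => cc x j ∣ f).card =
      ∑ x ∈ R, if x ^ Fintype.card F ^ j = x ∧ cc x j ∣ f then 1 else 0 := by
    intro j hj
    have hj1 := (mem_Icc.1 hj).1
    rw [← card_filter]
    congr 1
    ext x
    simp only [mem_filter, mem_VV (by omega : j ≠ 0)]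
    refine ⟨fun ⟨h2, h3⟩ => ⟨?_, h2, h3⟩, fun h => h.2⟩
    rw [hR, Multiset.mem_toFinset, mem_roots hf0, ← rootMultiplicity_pos hf0]
    refine lt_of_lt_of_le ?_ ((pow_dvd_iff x hf.ne_zero _).1 h3)
    exact Nat.div_pos (Nat.le_of_dvd hj1 ((fix_iff x j).1 h2)) (minpoly.natDegree_pos (integral x))
  rw [sum_congr rfl h1, sum_comm]
  have h2 : ∀ x ∈ R, (∑ j ∈ Icc 1 f.natDegree,
      if x ^ Fintype.card F ^ j = x ∧ cc x j ∣ f then 1 else 0) =
      (f.map (algebraMap F (KK F))).roots.count x := by
    intro x _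
    have hd := minpoly.natDegree_pos (integral x)
    rw [← card_filter, count_roots]
    symm
    rw [← Nat.sub_zero (rootMultiplicity _ _), ← Nat.card_Ioc]
    refine card_nbij (fun e => (minpoly F x).natDegree * e) ?_ ?_ ?_
    · intro e he
      rw [coe_Ioc, Set.mem_Ioc] at he
      have h3 := (pow_dvd_iff x hf.ne_zero e).2 he.2
      have h4 := natDegree_le_of_dvd h3 hf.ne_zero
      rw [(minpoly.monic (integral x)).natDegree_pow] at h4
      simp only [coe_filter, mem_Icc, Set.mem_ofPred_eq]
      refine ⟨⟨Nat.mul_pos hd he.1, by rwa [mul_comm]⟩, (fix_iff x _).2 (dvd_mul_right _ _), ?_⟩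
      rwa [cc, Nat.mul_div_cancel_left _ hd]
    · intro a _ b _ h
      exact Nat.eq_of_mul_eq_mul_left hd h
    · intro j hj
      simp only [coe_filter, mem_Icc, Set.mem_ofPred_eq] at hj
      obtain ⟨⟨h3, -⟩, h4, h5⟩ := hj
      obtain ⟨e, rfl⟩ := (fix_iff x j).1 h4
      rw [cc, Nat.mul_div_cancel_left _ hd, pow_dvd_iff x hf.ne_zero] at h5
      refine ⟨e, ?_, rfl⟩
      rw [coe_Ioc, Set.mem_Ioc]
      exact ⟨Nat.pos_of_mul_pos_left h3, h5⟩
  rw [sum_congr rfl h2, hR, Multiset.toFinset_sum_count_eq, IsAlgClosed.card_roots_eq_natDegree,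
    hf.natDegree_map]

end Pool.Agent.MP_d232b3_nt
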