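import Mathlib
import Pool.Agent.MP_d232b3_nt.Defs
import Pool.Agent.MP_d232b3_nt.Frob

/- Coefficients of the L-function and the recurrence relating them to prime sums. -/

set_option autoImplicit false

namespace Pool.Agent.MP_d232b3_nt

open Polynomial Finset
open scoped Classical

variable {F : Type*} [Field F] [Fintype F]

noncomputable instance fintypeDegreeLT (n : ℕ) : Fintype (degreeLT F n) :=
  Fintype.ofEquiv _ (degreeLTEquiv F n).symm.toEquiv

variable (F) in
/-- Monic polynomials of degree `n`. -/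
noncomputable def monF (n : ℕ) : Finset F[X] :=
  univ.map ⟨fun y : degreeLT F n => X ^ n + y.1, fun _ _ h => Subtype.ext (add_left_cancel h)⟩

theorem card_monF (n : ℕ) : (monF F n).card = Fintype.card F ^ n := by
  rw [monF, card_map, card_univ, Fintype.card_congr (degreeLTEquiv F n).toEquiv]
  simp

theorem mem_monF {n : ℕ} {g : F[X]} : g ∈ monF F n ↔ g.Monic ∧ g.natDegree = n := by
  simp only [monF, mem_map, mem_univ, true_and, Function.Embedding.coeFn_mk]
  refine ⟨fun ⟨y, hy⟩ => hy ▸ ?_, fun ⟨h1, h2⟩ => ⟨⟨g - X ^ n, mem_degreeLT.2 ?_⟩, by simp⟩⟩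
  · have hd := mem_degreeLT.1 y.2
    exact ⟨monic_X_pow_add hd, by
      rw [natDegree_add_eq_left_of_degree_lt (by rwa [degree_X_pow]), natDegree_X_pow]⟩
  have h3 : g.degree = n := by rw [degree_eq_natDegree h1.ne_zero, h2]
  rw [← h3]
  exact degree_sub_lt_left (by rw [h3, degree_X_pow]) h1.ne_zero (by simp [h1])

/-- The coefficients of the L-function. -/
noncomputable def AA (χ : F[X] → ℂ) (m : ℕ) : ℂ := ∑ f ∈ monF F m, χ f

/-- The prime sums. -/
noncomputable def SS (χ : F[X] → ℂ) (j : ℕ) : ℂ := ∑ x ∈ VV F j, χ (cc x j)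

theorem finsum_eq_AA (χ : F[X] → ℂ) (m : ℕ) :
    (∑ᶠ (f : F[X]) (_ : f.Monic ∧ f.natDegree = m), χ f) = AA χ m := by
  rw [AA, ← finsum_mem_coe_finset]
  simp only [mem_coe, mem_monF]

variable {k : ℕ} {χ : F[X] → ℂ}

omit [Fintype F] in
theorem IsArchChar.map_one (h : IsArchChar k χ) : χ 1 = 1 := by
  have h1 := h.map_mul 1 1 monic_one monic_one
  have h2 : χ 1 ≠ 0 := by
    intro h0
    have := h.norm_eq 1 monic_one
    simp [h0] at this
  rw [mul_one] at h1
  exact (mul_eq_left₀ h2).1 h1.symm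

omit [Fintype F] in
theorem IsArchChar.map_X_pow (h : IsArchChar k χ) (d : ℕ) : χ (X ^ d) = χ X ^ d := by
  induction d with
  | zero => simpa using h.map_one
  | succ d ih => rw [pow_succ, h.map_mul _ _ (monic_X_pow d) monic_X, ih, pow_succ]

omit [Fintype F] in
theorem top_monic {f : F[X]} (hf : f.Monic) {d m : ℕ} (hd : f.natDegree = d + m) :
    (f /ₘ X ^ d).Monic ∧ (f /ₘ X ^ d).natDegree = m := by
  refine ⟨?_, by rw [natDegree_divByMonic _ (monic_X_pow d), natDegree_X_pow]; omega⟩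
  rw [Monic, leadingCoeff_divByMonic_of_monic (monic_X_pow d), hf.leadingCoeff]
  rw [degree_X_pow, degree_eq_natDegree hf.ne_zero, hd]
  exact_mod_cast Nat.le_add_right d m

omit [Fintype F] in
theorem IsArchChar.eq_top (h : IsArchChar k χ) {f : F[X]} (hf : f.Monic) {d m : ℕ}
    (hd : f.natDegree = d + m) (hm : k ≤ m) : χ f = χ X ^ d * χ (f /ₘ X ^ d) := by
  have ht := top_monic hf hd
  rw [← h.map_X_pow, ← h.map_mul _ _ (monic_X_pow d) ht.1]
  refine h.depends _ _ hf ((monic_X_pow d).mul ht.1) ?_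
  rw [← modByMonic_eq_sub_mul_div f (X ^ d), degree_eq_natDegree hf.ne_zero, hd]
  have h1 := degree_modByMonic_lt f (monic_X_pow d)
  rw [degree_X_pow] at h1
  calc _ < (d : WithBot ℕ) + k := WithBot.add_lt_add_right (WithBot.natCast_ne_bot k) h1
    _ ≤ _ := by exact_mod_cast Nat.add_le_add_left hm d

theorem AA_zero (h : IsArchChar k χ) : AA χ 0 = 1 := by
  have : monF F 0 = {1} := by
    ext f
    rw [mem_monF, mem_singleton]
    exact ⟨fun ⟨h1, h2⟩ => h1.natDegree_eq_zero.1 h2, fun h => by simp [h]⟩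
  rw [AA, this, sum_singleton, h.map_one]

theorem AA_eq_zero (h : IsArchChar k χ) (hn : ¬ IsPrincipal χ) {m : ℕ} (hm : k ≤ m) :
    AA χ m = 0 := by
  have : ∃ g : F[X], g.Monic ∧ χ g ≠ χ X ^ g.natDegree := by
    by_contra hc
    exact hn ⟨χ X, fun f hf => by_contra fun h1 => hc ⟨f, hf, h1⟩⟩
  obtain ⟨g, hg, hne⟩ := this
  set d := g.natDegree with hd
  have hdeg : ∀ f ∈ monF F m, (g * f).natDegree = d + m := fun f hf => by
    rw [hg.natDegree_mul (mem_monF.1 hf).1, (mem_monF.1 hf).2]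
  have hmaps : ∀ f ∈ monF F m, (g * f) /ₘ X ^ d ∈ monF F m := fun f hf =>
    mem_monF.2 (top_monic (hg.mul (mem_monF.1 hf).1) (hdeg f hf))
  have hinj : Set.InjOn (fun f => (g * f) /ₘ X ^ d) (monF F m) := by
    intro a _ b _ hab
    by_contra hne
    have h1 : g * (a - b) = (g * a) %ₘ X ^ d - (g * b) %ₘ X ^ d := by
      rw [modByMonic_eq_sub_mul_div, modByMonic_eq_sub_mul_div]
      simp only at hab
      rw [hab]
      ring
    have h2 : (g * (a - b)).degree < d := by
      rw [h1, ← degree_X_pow (R := F) d]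
      exact (degree_sub_le _ _).trans_lt (max_lt (degree_modByMonic_lt _ (monic_X_pow d))
        (degree_modByMonic_lt _ (monic_X_pow d)))
    rw [← natDegree_lt_iff_degree_lt (mul_ne_zero hg.ne_zero (sub_ne_zero.2 hne)),
      hg.natDegree_mul' (sub_ne_zero.2 hne)] at h2
    omega
  have h1 : ∑ f ∈ monF F m, χ ((g * f) /ₘ X ^ d) = AA χ m :=
    sum_nbij _ hmaps hinj (surjOn_of_injOn_of_card_le _ hmaps hinj le_rfl) fun _ _ => rfl
  have h2 : χ g * AA χ m = χ X ^ d * AA χ m := by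
    nth_rewrite 2 [← h1]
    rw [AA, mul_sum, mul_sum]
    refine sum_congr rfl fun f hf => ?_
    rw [← h.map_mul _ _ hg (mem_monF.1 hf).1, h.eq_top (hg.mul (mem_monF.1 hf).1) (hdeg f hf) hm]
  by_contra h0
  exact hne (mul_right_cancel₀ h0 h2)

theorem sum_dvd (h : IsArchChar k χ) {c : F[X]} (hc : c.Monic) {m : ℕ} (hm : c.natDegree ≤ m) :
    ∑ f ∈ monF F m, (if c ∣ f then χ f else 0) = χ c * AA χ (m - c.natDegree) := by
  rw [← sum_filter, AA, mul_sum]
  symm
  refine sum_nbij (fun g => c * g) ?_ ?_ ?_ ?_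
  · intro g hg
    rw [mem_monF] at hg
    rw [mem_filter, mem_monF, hc.natDegree_mul hg.1, hg.2]
    exact ⟨⟨hc.mul hg.1, by omega⟩, dvd_mul_right _ _⟩
  · intro a _ b _ hab
    exact mul_left_cancel₀ hc.ne_zero hab
  · intro f hf
    rw [coe_filter, Set.mem_ofPred_eq, mem_monF] at hf
    obtain ⟨⟨h1, h2⟩, g, rfl⟩ := hf
    have hg := hc.of_mul_monic_left h1
    refine ⟨g, ?_, rfl⟩
    rw [mem_coe, mem_monF]
    rw [hc.natDegree_mul hg] at h2
    exact ⟨hg, by omega⟩
  · intro g hg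
    exact (h.map_mul _ _ hc (mem_monF.1 hg).1).symm

theorem recurrence (h : IsArchChar k χ) (m : ℕ) :
    (m : ℂ) * AA χ m = ∑ j ∈ Icc 1 m, SS χ j * AA χ (m - j) := by
  calc _ = ∑ f ∈ monF F m, ∑ j ∈ Icc 1 m, ∑ x ∈ VV F j, if cc x j ∣ f then χ f else 0 := by
        rw [AA, mul_sum]
        refine sum_congr rfl fun f hf => ?_
        obtain ⟨h1, rfl⟩ := mem_monF.1 hf
        nth_rewrite 1 [← degree_count h1]
        rw [Nat.cast_sum, sum_mul]
        refine sum_congr rfl fun j _ => ?_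
        rw [← sum_filter, sum_const, nsmul_eq_mul]
    _ = _ := by
        rw [sum_comm]
        refine sum_congr rfl fun j hj => ?_
        rw [mem_Icc] at hj
        rw [sum_comm, SS, sum_mul]
        refine sum_congr rfl fun x hx => ?_
        have hx' := (mem_VV (by omega)).1 hx
        rw [sum_dvd h (monic_cc x j) (by rw [natDegree_cc hx']; exact hj.2), natDegree_cc hx']

theorem norm_SS_le (h : IsArchChar k χ) {j : ℕ} (hj : j ≠ 0) :
    ‖SS χ j‖ ≤ (Fintype.card F : ℝ) ^ j := by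
  refine (norm_sum_le _ _).trans_eq ?_
  rw [sum_congr rfl fun x _ => h.norm_eq _ (monic_cc x j), sum_const, card_VV hj]
  simp

end Pool.Agent.MP_d232b3_nt
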