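import Mathlib

/- Products of linear factors in power series and their logarithmic derivatives. -/

set_option autoImplicit false

namespace Pool.Agent.MP_d232b3_nt

open PowerSeries

variable {R : Type*} [CommRing R]

/-- The product of `1 - w u` over a multiset. -/
noncomputable def PP (M : Multiset R) : R⟦X⟧ := (M.map fun w => 1 - C w * X).prod

/-- Minus the generating series of the power sums. -/
noncomputable def TT (M : Multiset R) : R⟦X⟧ :=
  PowerSeries.mk fun m => if m = 0 then 0 else -(M.map (· ^ m)).sum

/-- The geometric series. -/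
noncomputable def geo (w : R) : R⟦X⟧ := PowerSeries.mk fun m => w ^ m

theorem geo_mul (w : R) : geo w * (1 - C w * X) = 1 := by
  ext n
  rw [mul_sub, mul_one, ← mul_assoc, map_sub]
  cases n with
  | zero => simp [geo]
  | succ n =>
    rw [coeff_succ_mul_X, coeff_mul_C]
    simp [geo, pow_succ, coeff_one]

theorem PP_cons (w : R) (M : Multiset R) : PP (w ::ₘ M) = (1 - C w * X) * PP M := by
  simp [PP]

theorem PP_add (M N : Multiset R) : PP (M + N) = PP M * PP N := by simp [PP]

theorem TT_cons (w : R) (M : Multiset R) : TT (w ::ₘ M) = TT M - C w * X * geo w := by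
  ext n
  rw [map_sub, mul_assoc, coeff_C_mul]
  cases n with
  | zero => simp [TT]
  | succ n =>
    rw [coeff_succ_X_mul]
    simp [TT, geo, pow_succ]
    ring

theorem X_deriv_PP (M : Multiset R) : X * d⁄dX R (PP M) = PP M * TT M := by
  induction M using Multiset.induction_on with
  | empty =>
    have : TT (0 : Multiset R) = 0 := by ext n; simp [TT]
    simp [PP, this]
  | cons w M ih =>
    rw [PP_cons, TT_cons, Derivation.leibniz, map_sub, Derivation.leibniz, derivative_X,
      derivative_C, derivative_one]
    simp only [smul_eq_mul]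
    have h := geo_mul w
    linear_combination (1 - C w * X) * ih + (C w * X * PP M) * h

theorem constantCoeff_PP (M : Multiset R) : constantCoeff (PP M) = 1 := by
  induction M using Multiset.induction_on with
  | empty => simp [PP]
  | cons w M ih => rw [PP_cons, map_mul, ih]; simp

theorem map_PP {S : Type*} [CommRing S] (φ : R →+* S) (M : Multiset R) :
    PowerSeries.map φ (PP M) = PP (M.map φ) := by
  induction M using Multiset.induction_on with
  | empty => simp [PP]
  | cons w M ih => rw [Multiset.map_cons, PP_cons, PP_cons, map_mul, ih]; simp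

/-- Power sums up to order `k` only depend on the first `k` coefficients. -/
theorem TT_congr {M N : Multiset R} {k : ℕ} (h : X ^ (k + 1) ∣ PP M - PP N) :
    X ^ (k + 1) ∣ TT M - TT N := by
  have hu : IsUnit (PP M) := by
    rw [PowerSeries.isUnit_iff_constantCoeff, constantCoeff_PP]; exact isUnit_one
  have h1 : X ^ (k + 1) ∣ X * d⁄dX R (PP M - PP N) := by
    rw [X_pow_dvd_iff] at h ⊢
    intro m hm
    cases m with
    | zero => simp
    | succ m => rw [coeff_succ_X_mul, coeff_derivative, h _ hm, zero_mul]
  rw [map_sub, mul_sub, X_deriv_PP, X_deriv_PP] at h1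
  have h2 : X ^ (k + 1) ∣ PP M * (TT M - TT N) := by
    have : PP M * (TT M - TT N) = (PP M * TT M - PP N * TT N) - (PP M - PP N) * TT N := by ring
    rw [this]
    exact dvd_sub h1 (h.mul_right _)
  exact hu.dvd_mul_left.1 h2

open Polynomial in
theorem coe_reverse_prod [IsDomain R] (M : Multiset R) :
    (((M.map fun w => (Polynomial.X - Polynomial.C w : R[X])).prod.reverse : R[X]) : R⟦X⟧)
      = PP M := by
  induction M using Multiset.induction_on with
  | empty => simp [PP, Polynomial.reverse]
  | cons w M ih =>
    rw [Multiset.map_cons, Multiset.prod_cons, reverse_mul_of_domain, Polynomial.coe_mul, ih,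
      PP_cons]
    congr 1
    have : (Polynomial.X - Polynomial.C w : R[X]).reverse = 1 - Polynomial.C w * Polynomial.X := by
      rw [Polynomial.reverse, natDegree_X_sub_C, reflect_sub, reflect_one_X, reflect_C]
      simp
    rw [this]
    simp

open Polynomial in
theorem coeff_PP [IsDomain R] (M : Multiset R) {j : ℕ} (hj : j ≤ M.card) :
    PowerSeries.coeff j (PP M) =
      (M.map fun w => (Polynomial.X - Polynomial.C w : R[X])).prod.coeff (M.card - j) := by
  rw [← coe_reverse_prod, Polynomial.coeff_coe, coeff_reverse, natDegree_multiset_prod_X_sub_C_eq_card,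
    revAt_le hj]

open Polynomial in
theorem coeff_PP_eq_zero [IsDomain R] (M : Multiset R) {j : ℕ} (hj : M.card < j) :
    PowerSeries.coeff j (PP M) = 0 := by
  rw [← coe_reverse_prod, Polynomial.coeff_coe]
  refine coeff_eq_zero_of_natDegree_lt ((reverse_natDegree_le _).trans_lt ?_)
  rwa [natDegree_multiset_prod_X_sub_C_eq_card]

end Pool.Agent.MP_d232b3_nt
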