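import Mathlib
import Pool.Agent.MP_d232b3_nt.PS
import Pool.Agent.MP_d232b3_nt.Frob

/- The auxiliary polynomial argument and degree bookkeeping for Stepanov's method. -/

set_option autoImplicit false

namespace Pool.Agent.MP_d232b3_nt

open Polynomial Finset
open scoped Classical

variable {K : Type*} [Field K]

/-- Expansion at `x`: the outer variable goes to `x`, the inner one to `X - x`. -/
noncomputable def ev (x : K) : K[X][X] →+* K[X] :=
  eval₂RingHom (aeval (X - C x : K[X])).toRingHom (C x)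

theorem ev_X (x : K) : ev x X = C x := by simp [ev]

theorem ev_C_X (x : K) : ev x (C X) = X - C x := by simp [ev]

theorem ev_C_C (x a : K) : ev x (C (C a)) = C a := by simp [ev]

theorem aux_bound {ι : Type*} [Fintype ι] (g : ι → K[X]) (hg0 : ∀ i, g i ≠ 0)
    (hinj : Function.Injective fun i => (g i).natDegree) (Φ : ι → K[X][X]) {D M Dg : ℕ}
    (hΦ : ∀ i, (Φ i).natDegree ≤ D) (hcard : (D + 1) * M < Fintype.card ι)
    (hDg : ∀ i, (g i).natDegree ≤ Dg) (Z : Finset K)
    (hZ : ∀ x ∈ Z, ∀ i, (X - C x) ^ M ∣ g i - ev x (Φ i)) : Z.card * M ≤ Dg := by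
  let T : (ι → K) →ₗ[K] (Fin (D + 1) × Fin M → K) :=
    { toFun := fun e p => ∑ t, e t * ((Φ t).coeff p.1).coeff p.2
      map_add' := fun a b => by ext p; simp [add_mul, sum_add_distrib]
      map_smul' := fun c a => by ext p; simp [mul_sum, mul_assoc] }
  have hker : LinearMap.ker T ≠ ⊥ := LinearMap.ker_ne_bot_of_finrank_lt (by simpa using hcard)
  obtain ⟨e, he, he0⟩ := Submodule.exists_mem_ne_zero_of_ne_bot hker
  rw [LinearMap.mem_ker] at he
  set R : K[X] := ∑ t, C (e t) * g t with hR
  have hR0 : R ≠ 0 := by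
    obtain ⟨t, ht⟩ := Function.ne_iff.1 he0
    have h1 := degree_sum_eq_of_disjoint (fun t => C (e t) * g t) univ (by
      intro a ha b hb hab h
      have ha' : e a ≠ 0 := fun h0 => ha.2 (by simp [h0])
      have hb' : e b ≠ 0 := fun h0 => hb.2 (by simp [h0])
      simp only [Function.comp, degree_C_mul ha', degree_C_mul hb'] at h
      exact hab (hinj (natDegree_eq_of_degree_eq h)))
    intro h0
    have h2 : (C (e t) * g t).degree ≤ R.degree := by
      rw [hR, h1]
      exact le_sup (f := fun i => (C (e i) * g i).degree) (mem_univ t)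
    rw [h0, degree_zero, le_bot_iff, degree_eq_bot] at h2
    exact mul_ne_zero (C_ne_zero.2 ht) (hg0 t) h2
  have hRd : R.natDegree ≤ Dg :=
    natDegree_sum_le_of_forall_le _ _ fun t _ => (natDegree_C_mul_le _ _).trans (hDg t)
  set Ψ : K[X][X] := ∑ t, C (C (e t)) * Φ t with hΨ
  have hΨc : ∀ i, X ^ M ∣ Ψ.coeff i := by
    intro i
    rw [X_pow_dvd_iff]
    intro m hm
    simp only [hΨ, finsetSum_coeff, coeff_C_mul]
    by_cases hi : i < D + 1
    · exact congr_fun he (⟨i, hi⟩, ⟨m, hm⟩)
    · refine sum_eq_zero fun t _ => ?_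
      rw [coeff_eq_zero_of_natDegree_lt (p := Φ t) (by have := hΦ t; omega)]
      simp
  have hdiv : ∀ x ∈ Z, (X - C x) ^ M ∣ R := by
    intro x hx
    have h1 : (X - C x) ^ M ∣ ev x Ψ := by
      rw [ev, coe_eval₂RingHom, eval₂_eq_sum_range]
      refine dvd_sum fun i _ => Dvd.dvd.mul_right ?_ _
      obtain ⟨r, hr⟩ := hΨc i
      rw [hr]
      simp
    have h2 : R = ev x Ψ + ∑ t, C (e t) * (g t - ev x (Φ t)) := by
      rw [hΨ, map_sum, ← sum_add_distrib]
      refine sum_congr rfl fun t _ => ?_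
      rw [map_mul, ev_C_C]
      ring
    rw [h2]
    exact dvd_add h1 (dvd_sum fun t _ => (hZ x hx t).mul_left _)
  have hle : M • Z.val ≤ R.roots := by
    rw [Multiset.le_iff_count]
    intro x
    rw [Multiset.count_nsmul, count_roots]
    by_cases hx : x ∈ Z
    · rw [Multiset.count_eq_one_of_mem Z.nodup hx, mul_one]
      exact (le_rootMultiplicity_iff hR0).2 (hdiv x hx)
    · rw [Multiset.count_eq_zero_of_notMem hx]
      simp
  have := (Multiset.card_le_card hle).trans ((card_roots' R).trans hRd)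
  simpa [mul_comm] using this

/-- The degree of the `j`-th elementary symmetric function of `X, X ^ q, ..., X ^ q ^ (n-1)`. -/
def DD (q n j : ℕ) : ℕ := ∑ i ∈ range j, q ^ (n - 1 - i)

theorem DD_succ_succ (q n j : ℕ) : DD q (n + 1) (j + 1) = q ^ n + DD q n j := by
  rw [DD, sum_range_succ', add_comm, DD]
  congr 1
  refine sum_congr rfl fun i _ => ?_
  congr 1
  omega

theorem DD_add (q m : ℕ) {k j : ℕ} (h : j ≤ k) : DD q (m + k) j = q ^ m * DD q k j := by
  rw [DD, DD, mul_sum]
  refine sum_congr rfl fun i hi => ?_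
  rw [mem_range] at hi
  rw [← pow_add]
  congr 1
  omega

theorem weight_inj {q : ℕ} (k : ℕ) : ∀ (a a' : ℕ → ℕ) (b b' : ℕ), (∀ j < k, a j < q) →
    (∀ j < k, a' j < q) → 0 < q →
    ∑ j ∈ range k, a j * DD q k (j + 1) + b * q ^ k =
      ∑ j ∈ range k, a' j * DD q k (j + 1) + b' * q ^ k → (∀ j < k, a j = a' j) ∧ b = b' := by
  induction k with
  | zero => intro a a' b b' _ _ _ h; simpa using h
  | succ k ih =>
    intro a a' b b' ha ha' hq h
    have h1 : ∀ (c : ℕ → ℕ) (d : ℕ), ∑ j ∈ range (k + 1), c j * DD q (k + 1) (j + 1) +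
        d * q ^ (k + 1) = c k + q * (c k * DD q k k +
          (∑ j ∈ range k, c j * DD q k (j + 1) + d * q ^ k)) := by
      intro c d
      have h2 : DD q (k + 1) (k + 1) = q * DD q k k + 1 := by
        rw [DD, sum_range_succ, ← DD, add_comm k 1, DD_add q 1 le_rfl]
        simp
      have h3 : ∑ j ∈ range k, c j * DD q (k + 1) (j + 1) =
          q * ∑ j ∈ range k, c j * DD q k (j + 1) := by
        rw [mul_sum]
        refine sum_congr rfl fun j hj => ?_
        rw [add_comm k 1, DD_add q 1 (mem_range.1 hj)]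
        ring
      rw [sum_range_succ, h2, h3]
      ring
    rw [h1, h1] at h
    have h2 : a k = a' k := by
      have := congrArg (· % q) h
      simpa [Nat.mod_eq_of_lt (ha k k.lt_succ_self), Nat.mod_eq_of_lt (ha' k k.lt_succ_self)]
        using this
    rw [h2, add_right_inj, Nat.mul_right_inj hq.ne', add_right_inj] at h
    obtain ⟨h3, h4⟩ := ih a a' b b' (fun j hj => ha j (by omega)) (fun j hj => ha' j (by omega))
      hq h
    refine ⟨fun j hj => ?_, h4⟩
    rcases Nat.lt_succ_iff_lt_or_eq.1 hj with h5 | rfl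
    · exact h3 j h5
    · exact h2

theorem orb_succ {A : Type*} [Monoid A] (q : ℕ) (x : A) (n : ℕ) :
    orb q x (n + 1) = x ^ q ^ n ::ₘ orb q x n := by
  simp [orb, Multiset.range_succ]

theorem map_orb {A B : Type*} [Semiring A] [Semiring B] (φ : A →+* B) (q : ℕ) (x : A) (n : ℕ) :
    (orb q x n).map φ = orb q (φ x) n := by
  simp [orb]

theorem degree_coeff_PP {q : ℕ} (hq : 2 ≤ q) (n : ℕ) : ∀ j ≤ n,
    (PowerSeries.coeff j (PP (orb q (X : K[X]) n))).degree = DD q n j := by
  induction n with
  | zero =>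
    intro j hj
    obtain rfl := Nat.le_zero.1 hj
    simp [constantCoeff_PP, DD]
  | succ n ih =>
    intro j hj
    cases j with
    | zero => simp [constantCoeff_PP, DD]
    | succ j =>
      rw [orb_succ, PP_cons, sub_mul, one_mul, map_sub, mul_assoc, PowerSeries.coeff_C_mul,
        PowerSeries.coeff_succ_X_mul, DD_succ_succ]
      have h1 : ((X : K[X]) ^ q ^ n * PowerSeries.coeff j (PP (orb q X n))).degree =
          ((q ^ n + DD q n j : ℕ) : WithBot ℕ) := by
        rw [degree_mul, degree_X_pow, ih j (by omega), Nat.cast_add]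
      rw [degree_sub_eq_right_of_degree_lt, h1]
      rw [h1]
      by_cases hjn : j + 1 ≤ n
      · rw [ih _ hjn, DD, sum_range_succ, ← DD, add_comm, Nat.cast_lt, add_lt_add_iff_right]
        exact Nat.pow_lt_pow_right hq (by omega)
      · rw [coeff_PP_eq_zero _ (by rw [card_orb]; omega), degree_zero]
        exact WithBot.bot_lt_coe _

section Good

variable {A : Type*} [CommRing A]

/-- The coefficients have degree growing at most linearly. -/
def Good (c : ℕ) (φ : PowerSeries A[X]) : Prop := ∀ j, (PowerSeries.coeff j φ).natDegree ≤ c * j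

theorem Good.mul {c : ℕ} {φ ψ : PowerSeries A[X]} (h1 : Good c φ) (h2 : Good c ψ) :
    Good c (φ * ψ) := by
  intro j
  rw [PowerSeries.coeff_mul]
  refine natDegree_sum_le_of_forall_le _ _ fun p hp => natDegree_mul_le.trans ?_
  rw [← mem_antidiagonal.1 hp, mul_add]
  exact add_le_add (h1 _) (h2 _)

theorem good_prod {c : ℕ} (M : Multiset (PowerSeries A[X])) (h : ∀ φ ∈ M, Good c φ) :
    Good c M.prod := by
  refine Multiset.prod_induction _ _ (fun _ _ => Good.mul) (fun j => ?_) h
  rw [PowerSeries.coeff_one]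
  split_ifs <;> simp

theorem good_geo {c : ℕ} {w : A[X]} (h : w.natDegree ≤ c) : Good c (geo w) := by
  intro j
  rw [geo, PowerSeries.coeff_mk, mul_comm]
  exact natDegree_pow_le.trans (Nat.mul_le_mul_left _ h)

theorem good_lin {c : ℕ} {w : A[X]} (h : w.natDegree ≤ c) :
    Good c (1 - PowerSeries.C w * PowerSeries.X) := by
  intro j
  rw [map_sub, PowerSeries.coeff_C_mul, PowerSeries.coeff_one, PowerSeries.coeff_X]
  split_ifs with h1 h2 h2
  · omega
  · simp
  · simp [h2, h]
  · simp

theorem good_map {c : ℕ} (γ : PowerSeries A) : Good c (PowerSeries.map C γ) := by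
  intro j
  simp

/-- The inverse of `PP`. -/
noncomputable def IV (M : Multiset A) : PowerSeries A := (M.map geo).prod

theorem PP_mul_IV (M : Multiset A) : PP M * IV M = 1 := by
  rw [PP, IV, ← Multiset.prod_map_mul]
  simp [mul_comm _ (geo _), geo_mul]

theorem map_IV {B : Type*} [CommRing B] (φ : A →+* B) (M : Multiset A) :
    PowerSeries.map φ (IV M) = IV (M.map φ) := by
  rw [IV, IV, map_multiset_prod, Multiset.map_map, Multiset.map_map]
  congr 1
  refine Multiset.map_congr rfl fun w _ => ?_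
  ext n
  simp [geo]

theorem natDegree_orb_le {q s : ℕ} (hq : 1 ≤ q) {y : A[X]} (hy : y.natDegree ≤ 1) :
    ∀ w ∈ orb q y s, w.natDegree ≤ q ^ s := by
  intro w hw
  obtain ⟨i, hi, rfl⟩ := Multiset.mem_map.1 hw
  refine natDegree_pow_le.trans ((Nat.mul_le_mul_left _ hy).trans ?_)
  rw [mul_one]
  exact Nat.pow_le_pow_right hq (Multiset.mem_range.1 hi).le

end Good

end Pool.Agent.MP_d232b3_nt
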