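import Mathlib
import Pool.Agent.MP_d232b3_nt.AuxPoly

/- Stepanov's method for the norm map to truncated power series. -/

set_option autoImplicit false
set_option maxHeartbeats 400000

namespace Pool.Agent.MP_d232b3_nt

open Polynomial Finset
open scoped Classical

variable {K : Type*} [Field K]

theorem weight_inj' {q k : ℕ} (hq : 0 < q) {a a' : Fin k → Fin q} {b b' : ℕ}
    (h : ∑ j : Fin k, (a j : ℕ) * DD q k (j + 1) + b * q ^ k =
      ∑ j : Fin k, (a' j : ℕ) * DD q k (j + 1) + b' * q ^ k) : a = a' ∧ b = b' := by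
  have key : ∀ c : Fin k → Fin q, ∑ j : Fin k, (c j : ℕ) * DD q k (j + 1) =
      ∑ j ∈ range k, (if h : j < k then (c ⟨j, h⟩ : ℕ) else 0) * DD q k (j + 1) := by
    intro c
    rw [← Fin.sum_univ_eq_sum_range
      (fun j => (if h : j < k then (c ⟨j, h⟩ : ℕ) else 0) * DD q k (j + 1))]
    simp
  rw [key, key] at h
  obtain ⟨h1, h2⟩ := weight_inj k _ _ b b' (fun j hj => by simp [hj]) (fun j hj => by simp [hj])
    hq h
  refine ⟨funext fun j => Fin.ext ?_, h2⟩
  simpa using h1 j j.2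

/-- The two variable companion series. -/
noncomputable def comp2 (q s : ℕ) (γ : PowerSeries K) : PowerSeries K[X][X] :=
  PP (orb q (X + C X : K[X][X]) s) *
    PowerSeries.map (C : K[X] →+* K[X][X]) (PowerSeries.map (C : K →+* K[X]) γ) *
      IV (orb q (X : K[X][X]) s)

theorem good_comp2 {q : ℕ} (hq : 1 ≤ q) (s : ℕ) (γ : PowerSeries K) :
    Good (q ^ s) (comp2 q s γ) := by
  refine Good.mul (Good.mul (good_prod _ fun φ hφ => ?_) (good_map _)) (good_prod _ fun φ hφ => ?_)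
  · obtain ⟨w, hw, rfl⟩ := Multiset.mem_map.1 hφ
    exact good_lin (natDegree_orb_le hq (by rw [natDegree_X_add_C]) w hw)
  · obtain ⟨w, hw, rfl⟩ := Multiset.mem_map.1 hφ
    exact good_geo (natDegree_orb_le hq (by rw [natDegree_X]) w hw)

theorem coeff_congr {B : Type*} [CommRing B] (π : K[X] →+* B) {q s k : ℕ} {x : K}
    (h1 : π X ^ q ^ s = π (C x) ^ q ^ s) {γ : PowerSeries K}
    (hγ : PowerSeries.X ^ (k + 1) ∣ PP (orb q x (2 * s)) - γ) {j : ℕ} (hj : j ≤ k) :
    π (PowerSeries.coeff j (PP (orb q X (2 * s)))) =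
      π (ev x (PowerSeries.coeff j (comp2 q s γ))) := by
  have h2 : PP (orb q (π (C x) ^ q ^ s) s) =
      PowerSeries.map (π.comp C) (PP (orb q x (2 * s))) * IV (orb q (π (C x)) s) := by
    rw [map_PP, map_orb, two_mul, orb_add, PP_add, mul_right_comm, RingHom.comp_apply, PP_mul_IV,
      one_mul]
  rw [← PowerSeries.coeff_map, ← PowerSeries.coeff_map, ← PowerSeries.coeff_map, map_PP, map_orb,
    two_mul, orb_add, PP_add, h1, h2, comp2]
  have h3 : PowerSeries.map π (PowerSeries.map (ev x) (PowerSeries.map C (PowerSeries.map C γ))) =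
      PowerSeries.map (π.comp C) γ := by
    ext n
    simp [ev_C_C]
  obtain ⟨r, hr⟩ := hγ
  rw [map_mul (PowerSeries.map (ev x)), map_mul (PowerSeries.map (ev x)),
    map_mul (PowerSeries.map π), map_mul (PowerSeries.map π), h3, map_PP (ev x),
    map_IV (ev x), map_orb, map_orb,
    map_add (ev x), ev_X, ev_C_X, add_sub_cancel, map_PP π, map_IV π, map_orb, map_orb,
    ← sub_eq_zero, ← map_sub, ← mul_assoc, ← sub_mul, ← mul_sub, ← map_sub, hr]
  refine PowerSeries.X_pow_dvd_iff.1 ?_ j (Nat.lt_succ_of_le hj)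
  rw [map_mul, map_pow, PowerSeries.map_X]
  exact ((dvd_mul_right _ _).mul_left _).mul_right _

theorem stepanov {p : ℕ} [Fact p.Prime] [CharP K p] {e : ℕ} (he : e ≠ 0) (k : ℕ) :
    ∃ c s0 : ℕ, ∀ s ≥ s0, ∀ (γ : PowerSeries K) (Z : Finset K),
      (∀ x ∈ Z, x ^ (p ^ e) ^ (2 * s) = x ∧
        PowerSeries.X ^ (k + 1) ∣ PP (orb (p ^ e) x (2 * s)) - γ) →
      Z.card * (p ^ e) ^ k ≤ (p ^ e) ^ (2 * s) + c * (p ^ e) ^ s := by
  have hq2 : 2 ≤ p ^ e := Nat.one_lt_pow he (Fact.out : p.Prime).one_lt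
  set q := p ^ e with hq
  set c0 := k * (q * k) with hc0
  set c1 := ∑ j : Fin k, q * DD q k (j + 1) with hc1
  refine ⟨1 + c1 + q ^ k * (c0 + 1), k + (c0 + 2), fun s hs γ Z hZ => ?_⟩
  obtain ⟨v, rfl⟩ : ∃ v, s = v + k := ⟨s - k, by omega⟩
  set q0 := q ^ (v + k) with hq0
  set V := q ^ v with hV
  set B := V + c0 + 1 with hB
  have hVq : V * q ^ k = q0 := by rw [hV, hq0, pow_add]
  have hV0 : 0 < V := by positivity
  have hq00 : c0 + 2 < q0 := (Nat.lt_pow_self (by omega)).trans_le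
    (Nat.pow_le_pow_right (by omega) (by omega))
  have hVle : V ≤ q0 := Nat.pow_le_pow_right (by omega) (by omega)
  have hn : 2 * (v + k) = (v + k + v) + k := by ring
  let E : ℕ → K[X] := fun j => PowerSeries.coeff j (PP (orb q X (2 * (v + k))))
  have hE : ∀ j : Fin k, (E (j + 1)).degree = ((q0 * V * DD q k (j + 1) : ℕ) : WithBot ℕ) := by
    intro j
    have := j.2
    rw [degree_coeff_PP hq2 _ _ (by omega), hn, DD_add q _ (by omega), pow_add]
  have hE0 : ∀ j : Fin k, E (j + 1) ≠ 0 := fun j h => by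
    have := hE j
    rw [h, degree_zero] at this
    exact WithBot.bot_ne_coe this
  let E' : ℕ → K[X][X] := fun j => PowerSeries.coeff j (comp2 q (v + k) γ)
  have hE' : ∀ j, (E' j).natDegree ≤ q0 * j := good_comp2 (by omega) _ _
  let g : (Fin k → Fin q) × Fin (B + 1) × Fin (q0 * V) → K[X] := fun i =>
    X ^ (i.2.2 : ℕ) * (∏ j : Fin k, E (j + 1) ^ (i.1 j : ℕ)) * X ^ (q0 * q0 * i.2.1)
  let Φ : (Fin k → Fin q) × Fin (B + 1) × Fin (q0 * V) → K[X][X] := fun i =>
    (X + C X) ^ (i.2.2 : ℕ) * (∏ j : Fin k, E' (j + 1) ^ (i.1 j : ℕ)) * X ^ (i.2.1 : ℕ)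
  have hprod : ∀ a : Fin k → Fin q, (∏ j : Fin k, E (j + 1) ^ (a j : ℕ)) ≠ 0 := fun a =>
    prod_ne_zero_iff.2 fun j _ => pow_ne_zero _ (hE0 j)
  have hg0 : ∀ i, g i ≠ 0 := fun i =>
    mul_ne_zero (mul_ne_zero (pow_ne_zero _ X_ne_zero) (hprod _)) (pow_ne_zero _ X_ne_zero)
  have hgd : ∀ i, (g i).natDegree = i.2.2 + q0 * V *
      (∑ j : Fin k, (i.1 j : ℕ) * DD q k (j + 1) + i.2.1 * q ^ k) := by
    intro i
    rw [natDegree_mul (mul_ne_zero (pow_ne_zero _ X_ne_zero) (hprod _)) (pow_ne_zero _ X_ne_zero),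
      natDegree_mul (pow_ne_zero _ X_ne_zero) (hprod _), natDegree_X_pow, natDegree_X_pow,
      natDegree_prod _ _ fun j _ => pow_ne_zero _ (hE0 j), mul_add, mul_sum, add_assoc]
    congr 2
    · refine sum_congr rfl fun j _ => ?_
      rw [natDegree_pow, natDegree_eq_of_degree_eq_some (hE j)]
      ring
    · nth_rewrite 2 [← hVq]
      ring
  have key := aux_bound g hg0 ?_ Φ (D := q0 * V + q0 * c0 + B) (M := q0)
    (Dg := q0 * V + q0 * V * (c1 + B * q ^ k)) ?_ ?_ ?_ Z ?_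
  · have h1 : Z.card ≤ V + V * (c1 + B * q ^ k) := by
      refine Nat.le_of_mul_le_mul_right (key.trans_eq ?_) (by omega : 0 < q0)
      ring
    have h2 : q ^ (2 * (v + k)) = q0 * q0 := by rw [two_mul, pow_add]
    calc _ ≤ (V + V * (c1 + B * q ^ k)) * q ^ k := Nat.mul_le_mul_right _ h1
      _ = V * q ^ k * (1 + c1 + V * q ^ k + (c0 + 1) * q ^ k) := by rw [hB]; ring
      _ = _ := by rw [hVq, h2]; ring
  · intro i i' h
    simp only [hgd] at h
    have h1 : (i.2.2 : ℕ) = i'.2.2 := by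
      have := congrArg (· % (q0 * V)) h
      simpa [Nat.mod_eq_of_lt i.2.2.2, Nat.mod_eq_of_lt i'.2.2.2] using this
    rw [h1, add_right_inj, Nat.mul_right_inj (by positivity)] at h
    obtain ⟨h2, h3⟩ := weight_inj' (by omega) h
    exact Prod.ext h2 (Prod.ext (Fin.ext h3) (Fin.ext h1))
  · intro i
    refine natDegree_mul_le.trans (add_le_add (natDegree_mul_le.trans (add_le_add ?_ ?_)) ?_)
    · refine natDegree_pow_le.trans ?_
      rw [natDegree_X_add_C, mul_one]
      exact i.2.2.2.le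
    · refine (natDegree_prod_le _ _).trans ((sum_le_sum (g := fun _ => q * (q0 * k))
        fun j _ => ?_).trans_eq ?_)
      · exact natDegree_pow_le.trans (Nat.mul_le_mul (i.1 j).2.le
          ((hE' _).trans (Nat.mul_le_mul_left _ j.2)))
      · rw [sum_const, card_univ, Fintype.card_fin, smul_eq_mul, hc0]
        ring
    · rw [natDegree_X_pow]
      exact Nat.le_of_lt_succ i.2.1.2
  · simp only [Fintype.card_prod, Fintype.card_fun, Fintype.card_fin]
    calc _ < q0 * (B + 1) * q0 := by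
          refine Nat.mul_lt_mul_of_pos_right ?_ (by omega)
          rw [hB]
          nlinarith
      _ = V * q ^ k * (B + 1) * q0 := by rw [hVq]
      _ = _ := by ring
  · intro i
    rw [hgd]
    refine add_le_add i.2.2.2.le (Nat.mul_le_mul_left _ (add_le_add (sum_le_sum fun j _ => ?_)
      (Nat.mul_le_mul_right _ (Nat.le_of_lt_succ i.2.1.2))))
    exact Nat.mul_le_mul_right _ (i.1 j).2.le
  · intro x hx i
    obtain ⟨h1, h2⟩ := hZ x hx
    rw [← Ideal.mem_span_singleton, ← Ideal.Quotient.eq]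
    have h4 : Ideal.Quotient.mk (Ideal.span {(X - C x) ^ q0}) X ^ q0 =
        Ideal.Quotient.mk (Ideal.span {(X - C x) ^ q0}) (C x) ^ q0 := by
      rw [← map_pow, ← map_pow, Ideal.Quotient.eq, hq0, hq, ← pow_mul, ← sub_pow_char_pow]
      exact Ideal.mem_span_singleton_self _
    have h3 : ∀ j : Fin k, Ideal.Quotient.mk (Ideal.span {(X - C x) ^ q0}) (E (j + 1)) =
        Ideal.Quotient.mk (Ideal.span {(X - C x) ^ q0}) (ev x (E' (j + 1))) := fun j =>
      coeff_congr _ h4 h2 j.2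
    have h5 : Ideal.Quotient.mk (Ideal.span {(X - C x) ^ q0}) X ^ (q0 * q0) =
        Ideal.Quotient.mk (Ideal.span {(X - C x) ^ q0}) (C x) := by
      rw [pow_mul, h4, ← pow_mul, ← map_pow, ← map_pow, hq0, ← pow_add, ← two_mul, h1]
    simp only [g, Φ, map_mul, map_pow, map_prod, map_add, ev_X, ev_C_X, add_sub_cancel, h3]
    rw [pow_mul, h5]

end Pool.Agent.MP_d232b3_nt
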