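import Mathlib
import Pool.Agent.MP_d232b3_nt.Rec
import Pool.Agent.MP_d232b3_nt.Step

/- The Riemann hypothesis for short interval characters. -/

set_option autoImplicit false

namespace Pool.Agent.MP_d232b3_nt

open Polynomial Finset
open scoped Classical

variable {F : Type*} [Field F] [Fintype F] {k : ℕ} {χ : F[X] → ℂ}

omit [Fintype F] in
theorem coeff_top (f : F[X]) (d i : ℕ) : (f /ₘ X ^ d).coeff i = f.coeff (i + d) := by
  nth_rewrite 2 [← modByMonic_add_div f (X ^ d)]
  rw [coeff_add, coeff_X_pow_mul, coeff_eq_zero_of_degree_lt (p := f %ₘ X ^ d), zero_add]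
  refine (degree_modByMonic_lt f (monic_X_pow d)).trans_le ?_
  rw [degree_X_pow]
  exact_mod_cast Nat.le_add_left d i

theorem norm_SS_even (h : IsArchChar k χ) (hn : ¬ IsPrincipal χ) :
    ∃ (c : ℝ) (s0 : ℕ), ∀ s ≥ s0, ‖SS χ (2 * s)‖ ≤ c * (Fintype.card F : ℝ) ^ s := by
  obtain ⟨p, hp⟩ := CharP.exists F
  obtain ⟨e, hpp, he⟩ := FiniteField.card F p
  have : Fact p.Prime := ⟨hpp⟩
  have : CharP (KK F) p := charP_of_injective_algebraMap (algebraMap F (KK F)).injective p
  obtain ⟨c, s0, hc⟩ := stepanov (K := KK F) (p := p) e.ne_zero k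
  rw [← he] at hc
  refine ⟨c, s0 + k + 1, fun s hs => ?_⟩
  obtain ⟨d, hd⟩ : ∃ d, 2 * s = d + k := ⟨2 * s - k, by omega⟩
  have hs0 : 2 * s ≠ 0 := by omega
  set q := Fintype.card F with hq
  let N : F[X] → ℕ := fun g => ((VV F (2 * s)).filter fun x => cc x (2 * s) /ₘ X ^ d = g).card
  have hmaps : ∀ x ∈ VV F (2 * s), cc x (2 * s) /ₘ X ^ d ∈ monF F k := fun x hx =>
    mem_monF.2 (top_monic (monic_cc _ _) (by rw [natDegree_cc ((mem_VV hs0).1 hx), hd]))
  have h1 : SS χ (2 * s) = χ X ^ d * ∑ g ∈ monF F k, (N g : ℂ) * χ g := by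
    rw [SS, ← sum_fiberwise_of_maps_to hmaps, mul_sum]
    refine sum_congr rfl fun g _ => ?_
    rw [sum_congr rfl (g := fun _ => χ X ^ d * χ g), sum_const, nsmul_eq_mul]
    · ring
    · intro x hx
      rw [mem_filter] at hx
      rw [h.eq_top (monic_cc _ _) (by rw [natDegree_cc ((mem_VV hs0).1 hx.1), hd]) le_rfl, hx.2]
  have h2 : ∑ g ∈ monF F k, N g = q ^ (2 * s) := by
    rw [← card_VV hs0, card_eq_sum_card_fiberwise hmaps]
  have h3 : ∀ g ∈ monF F k, N g * q ^ k ≤ q ^ (2 * s) + c * q ^ s := by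
    intro g _
    refine hc s (by omega) (PowerSeries.mk fun j => algebraMap F (KK F) (g.coeff (k - j))) _
      fun x hx => ?_
    rw [mem_filter, mem_VV hs0] at hx
    refine ⟨hx.1, PowerSeries.X_pow_dvd_iff.2 fun j hj => ?_⟩
    rw [map_sub, coeff_PP _ (by rw [card_orb]; omega), ← map_cc hx.1, coeff_map, card_orb,
      PowerSeries.coeff_mk, ← hx.2, coeff_top, sub_eq_zero]
    congr 2
    omega
  have hq0 : (0 : ℝ) < (q : ℝ) ^ k := by have := Fintype.card_pos (α := F); positivity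
  set B : ℝ := ((q : ℝ) ^ (2 * s) + c * q ^ s) / q ^ k with hB
  have h4 : ∀ g ∈ monF F k, (N g : ℝ) ≤ B := fun g hg => by
    rw [hB, le_div_iff₀ hq0]
    exact_mod_cast h3 g hg
  have h5 : ∑ g ∈ monF F k, (N g : ℂ) * χ g = ∑ g ∈ monF F k, ((N g - B : ℝ) : ℂ) * χ g := by
    have := AA_eq_zero h hn le_rfl
    rw [AA] at this
    simp only [Complex.ofReal_sub, sub_mul, sum_sub_distrib, ← mul_sum, this]
    simp
  rw [h1, h5, norm_mul, norm_pow, h.norm_eq _ monic_X, one_pow, one_mul]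
  refine (norm_sum_le _ _).trans_eq ?_
  rw [sum_congr rfl (g := fun g => B - N g), sum_sub_distrib, sum_const, card_monF,
    ← Nat.cast_sum, h2, nsmul_eq_mul, hB]
  · push_cast
    field_simp
    ring
  · intro g hg
    rw [norm_mul, h.norm_eq _ (mem_monF.1 hg).1, mul_one, Complex.norm_real, Real.norm_eq_abs,
      abs_sub_comm, abs_of_nonneg (sub_nonneg.2 (h4 g hg))]

theorem norm_le_of_sum_pow_le {ρ : ℝ} (hρ : 0 < ρ) {β : ℂ} (T : Finset ℂ) (hβ : β ∉ T) :
    ∀ (a : ℂ → ℂ) (c : ℝ) (s0 : ℕ), (∀ w ∈ insert β T, a w ≠ 0) →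
      (∀ s ≥ s0, ‖∑ w ∈ insert β T, a w * w ^ s‖ ≤ c * ρ ^ s) → ‖β‖ ≤ ρ := by
  induction T using Finset.induction_on with
  | empty =>
    intro a c s0 ha hb
    by_contra hlt
    have h1 : 1 < ‖β‖ / ρ := (one_lt_div hρ).2 (not_le.1 hlt)
    have h2 := norm_pos_iff.2 (ha β (by simp))
    obtain ⟨s, hs1, hs2⟩ := (((tendsto_pow_atTop_atTop_of_one_lt h1).eventually_gt_atTop
      (c / ‖a β‖)).and (Filter.eventually_ge_atTop s0)).exists
    have h3 := hb s hs2
    simp only [insert_empty_eq, sum_singleton, norm_mul, norm_pow] at h3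
    rw [div_pow, div_lt_div_iff₀ h2 (by positivity)] at hs1
    linarith
  | insert γ T hγ ih =>
    intro a c s0 ha hb
    rw [mem_insert, not_or] at hβ
    refine ih hβ.2 (fun w => a w * (w - γ)) (c * ρ + ‖γ‖ * c) s0 (fun w hw => ?_) fun s hs => ?_
    · refine mul_ne_zero (ha w ?_) (sub_ne_zero.2 ?_)
      · rcases mem_insert.1 hw with rfl | h <;> simp [*]
      · rintro rfl
        rcases mem_insert.1 hw with rfl | h
        · exact hβ.1 rfl
        · exact hγ h
    · have h1 : ∑ w ∈ insert β T, a w * (w - γ) * w ^ s =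
          ∑ w ∈ insert β (insert γ T), a w * w ^ (s + 1) -
            γ * ∑ w ∈ insert β (insert γ T), a w * w ^ s := by
        rw [mul_sum, ← sum_sub_distrib, Finset.insert_comm,
          sum_insert (a := γ) (by simp [hγ, Ne.symm hβ.1])]
        rw [show a γ * γ ^ (s + 1) - γ * (a γ * γ ^ s) = 0 by ring, zero_add]
        exact sum_congr rfl fun w _ => by ring
      rw [h1]
      refine (norm_sub_le _ _).trans ?_
      rw [norm_mul]
      have h2 := hb (s + 1) (by omega)
      have h3 := mul_le_mul_of_nonneg_left (hb s hs) (norm_nonneg γ)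
      rw [pow_succ] at h2
      linarith

theorem exists_zeros (h : IsArchChar k χ) (hn : ¬ IsPrincipal χ) :
    ∃ Ω : Multiset ℂ, Ω.card < k ∧ (∀ m, PowerSeries.coeff m (PP Ω) = AA χ m) ∧
      (∀ j, j ≠ 0 → SS χ j = -(Ω.map (· ^ j)).sum) ∧
      ∀ w ∈ Ω, ‖w‖ ^ 2 ≤ Fintype.card F := by
  have hk : k ≠ 0 := by
    rintro rfl
    have := AA_eq_zero h hn le_rfl
    rw [AA_zero h] at this
    exact one_ne_zero this
  obtain ⟨n, rfl⟩ := Nat.exists_eq_succ_of_ne_zero hk
  set R : ℂ[X] := ∑ i ∈ range (n + 1), monomial i (AA χ (n - i)) with hR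
  have hRc : ∀ i, R.coeff i = if i ≤ n then AA χ (n - i) else 0 := by
    intro i
    simp [hR, coeff_monomial]
  have hRd : R.natDegree ≤ n := natDegree_le_iff_coeff_eq_zero.2 fun i hi => by
    rw [hRc, if_neg (by omega)]
  have hRn : R.coeff n = 1 := by rw [hRc, if_pos le_rfl, Nat.sub_self, AA_zero h]
  have hRm : R.Monic := monic_of_natDegree_le_of_coeff_eq_one n hRd hRn
  have hcard : R.roots.card = n := by
    rw [IsAlgClosed.card_roots_eq_natDegree]
    exact natDegree_eq_of_le_of_coeff_ne_zero hRd (by rw [hRn]; exact one_ne_zero)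
  have h1 : ∀ m, PowerSeries.coeff m (PP R.roots) = AA χ m := by
    intro m
    by_cases hm : m ≤ n
    · rw [coeff_PP _ (hcard ▸ hm), prod_multiset_X_sub_C_of_monic_of_roots_card_eq hRm
        IsAlgClosed.card_roots_eq_natDegree, hcard, hRc, if_pos (by omega)]
      congr 1
      omega
    · rw [coeff_PP_eq_zero _ (by omega), AA_eq_zero h hn (by omega)]
  have h2 : PP R.roots * TT R.roots =
      PP R.roots * PowerSeries.mk fun j => if j = 0 then 0 else SS χ j := by
    rw [← X_deriv_PP]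
    ext m
    rw [mul_comm (PP _), PowerSeries.coeff_mul _ (PowerSeries.mk _), Finset.Nat.sum_antidiagonal_eq_sum_range_succ_mk,
      sum_range_succ']
    simp only [PowerSeries.coeff_mk, h1, if_true, zero_mul, add_zero, Nat.succ_ne_zero, if_false]
    have h3 := recurrence h m
    rw [← Finset.Ico_add_one_right_eq_Icc, sum_Ico_eq_sum_range, Nat.add_sub_cancel] at h3
    simp only [add_comm 1] at h3
    rw [← h3]
    cases m with
    | zero => simp
    | succ m =>
      rw [PowerSeries.coeff_succ_X_mul, PowerSeries.coeff_derivative, h1]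
      push_cast
      ring
  have h3 : PP R.roots ≠ 0 := fun h0 => by simpa [h0] using constantCoeff_PP R.roots
  have h4 : ∀ j, j ≠ 0 → SS χ j = -(R.roots.map (· ^ j)).sum := by
    intro j hj
    have := congrArg (PowerSeries.coeff j) (mul_left_cancel₀ h3 h2)
    simpa [TT, hj] using this.symm
  refine ⟨R.roots, by omega, h1, h4, fun w hw => ?_⟩
  obtain ⟨c, s0, hc⟩ := norm_SS_even h hn
  set M := R.roots.map (· ^ 2) with hM
  have h5 : w ^ 2 ∈ M.toFinset := Multiset.mem_toFinset.2 (Multiset.mem_map_of_mem _ hw)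
  rw [← norm_pow]
  refine norm_le_of_sum_pow_le (by exact_mod_cast Fintype.card_pos) (M.toFinset.erase (w ^ 2))
    (notMem_erase _ _) (fun v => M.count v) c (s0 + 1) ?_ fun s hs => ?_
  · rw [insert_erase h5]
    intro v hv
    exact_mod_cast Multiset.count_ne_zero.2 (Multiset.mem_toFinset.1 hv)
  · rw [insert_erase h5]
    have h6 := hc s (by omega)
    rw [h4 _ (by omega), norm_neg] at h6
    refine le_of_eq_of_le ?_ h6
    have := Finset.sum_multiset_map_count M (· ^ s)
    simp only [nsmul_eq_mul] at this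
    rw [← this, hM, Multiset.map_map]
    simp [pow_mul]

end Pool.Agent.MP_d232b3_nt
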