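import Mathlib
import Pool.Agent.MP_d232b3_nt.RH

/- Truncated expansion of the logarithmic derivative, and the upper bound. -/

set_option autoImplicit false

namespace Pool.Agent.MP_d232b3_nt

open Polynomial Finset
open scoped Classical

variable {F : Type*} [Field F] [Fintype F] {k : ℕ} {χ : F[X] → ℂ}

theorem hasDerivAt_prod (Ω : Multiset ℂ) (a s : ℂ)
    (h : ∀ w ∈ Ω, 1 - w * Complex.exp (a * -s) ≠ 0) :
    HasDerivAt (fun s => (Ω.map fun w => 1 - w * Complex.exp (a * -s)).prod)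
      ((Ω.map fun w => 1 - w * Complex.exp (a * -s)).prod *
        (a * (Ω.map fun w => w * Complex.exp (a * -s) / (1 - w * Complex.exp (a * -s))).sum)) s := by
  induction Ω using Multiset.induction_on with
  | empty => simpa using hasDerivAt_const s (1 : ℂ)
  | cons w Ω ih =>
    simp only [Multiset.map_cons, Multiset.prod_cons, Multiset.sum_cons]
    have h1 := ((((hasDerivAt_id s).neg.const_mul a).cexp.const_mul w).const_sub 1).mul
      (ih fun v hv => h v (Multiset.mem_cons_of_mem hv))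
    have h2 := h w (Multiset.mem_cons_self _ _)
    refine h1.congr_deriv ?_
    simp only [Pi.neg_apply, id]
    generalize (Multiset.map (fun w => 1 - w * Complex.exp (a * -s)) Ω).prod = P
    generalize (Multiset.map (fun w => w * Complex.exp (a * -s) /
      (1 - w * Complex.exp (a * -s))) Ω).sum = S
    generalize Complex.exp (a * -s) = z at h2 ⊢
    field_simp

theorem expand_sum (Ω : Multiset ℂ) (z : ℂ) {ρ : ℝ} (hρ : ρ < 1) (hρ0 : 0 ≤ ρ)
    (h : ∀ w ∈ Ω, ‖w * z‖ ≤ ρ) (J : ℕ) :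
    ‖(Ω.map fun w => w * z / (1 - w * z)).sum -
      ∑ j ∈ range J, (Ω.map (· ^ (j + 1))).sum * z ^ (j + 1)‖ ≤
      Ω.card * (ρ ^ (J + 1) / (1 - ρ)) := by
  induction Ω using Multiset.induction_on with
  | empty => simp
  | cons w Ω ih =>
    have h1 := h w (Multiset.mem_cons_self _ _)
    have h2 : 1 - ρ ≤ ‖1 - w * z‖ := by
      have := norm_sub_norm_le 1 (w * z)
      rw [norm_one] at this
      linarith
    have h3 : 1 - w * z ≠ 0 := norm_pos_iff.1 (by linarith)
    have h4 : w * z / (1 - w * z) - ∑ j ∈ range J, w ^ (j + 1) * z ^ (j + 1) =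
        (w * z) ^ (J + 1) / (1 - w * z) := by
      have := mul_neg_geom_sum (w * z) J
      simp only [← mul_pow]
      simp only [pow_succ (w * z), ← sum_mul]
      generalize w * z = y at h3 this ⊢
      field_simp
      linear_combination (-y) * this
    simp only [Multiset.map_cons, Multiset.sum_cons, Multiset.card_cons, add_mul, sum_add_distrib,
      Nat.cast_add, Nat.cast_one, one_mul]
    rw [add_sub_add_comm, h4, add_comm _ (ρ ^ (J + 1) / (1 - ρ))]
    refine (norm_add_le _ _).trans (add_le_add ?_ (ih fun v hv => h v (Multiset.mem_cons_of_mem hv)))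
    rw [norm_div, norm_pow]
    have : 0 < 1 - ρ := by linarith
    gcongr

theorem Lfun_eq {Ω : Multiset ℂ} (h : ∀ m, PowerSeries.coeff m (PP Ω) = AA χ m) (s : ℂ) :
    Lfun χ s = (Ω.map fun w => 1 - w * Complex.exp (Real.log (Fintype.card F) * -s)).prod := by
  have hq : (Fintype.card F : ℂ) ≠ 0 := Nat.cast_ne_zero.2 Fintype.card_ne_zero
  set P : ℂ[X] := (Ω.map fun w => 1 - C w * X).prod with hP
  have h1 : (P : PowerSeries ℂ) = PP Ω := by
    rw [hP, ← coeToPowerSeries.ringHom_apply, map_multiset_prod, Multiset.map_map, PP]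
    simp
  have h2 : ∀ m, P.coeff m = AA χ m := fun m => by rw [← h, ← h1, coeff_coe]
  set z := Complex.exp (Real.log (Fintype.card F) * -s) with hz
  have h3 : ∀ m : ℕ, (Fintype.card F : ℂ) ^ (-(m * s)) = z ^ m := fun m => by
    rw [← mul_neg, Complex.cpow_nat_mul, Complex.cpow_def_of_ne_zero hq, hz, Complex.natCast_log]
  simp only [Lfun, finsum_eq_AA, h3, ← h2]
  rw [tsum_eq_sum (s := range (P.natDegree + 1)), ← eval_eq_sum_range, hP, eval_multiset_prod,
    Multiset.map_map]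
  · simp
  · intro m hm
    rw [coeff_eq_zero_of_natDegree_lt (by simpa using hm), zero_mul]

theorem approx (h : IsArchChar k χ) (hn : ¬ IsPrincipal χ) {s : ℂ} (hs : 1 / 2 < s.re) :
    Lfun χ s ≠ 0 ∧ ∀ J : ℕ, ‖logDeriv (Lfun χ) s + Real.log (Fintype.card F) *
      ∑ j ∈ range J, SS χ (j + 1) * Complex.exp (Real.log (Fintype.card F) * -s) ^ (j + 1)‖ ≤
      Real.log (Fintype.card F) * (k * (((Fintype.card F : ℝ) ^ (1 / 2 - s.re)) ^ (J + 1) /
        (1 - (Fintype.card F : ℝ) ^ (1 / 2 - s.re)))) := by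
  obtain ⟨Ω, h1, h2, h3, h4⟩ := exists_zeros h hn
  have hq : (1 : ℝ) < Fintype.card F := by exact_mod_cast Fintype.one_lt_card
  set ρ := (Fintype.card F : ℝ) ^ (1 / 2 - s.re) with hρ
  have hρ1 : ρ < 1 := Real.rpow_lt_one_of_one_lt_of_neg hq (by linarith)
  have hρ0 : 0 ≤ ρ := by positivity
  set a : ℝ := Real.log (Fintype.card F) with ha
  have ha0 : 0 ≤ a := Real.log_nonneg hq.le
  have h5 : ∀ w ∈ Ω, ‖w * Complex.exp (a * -s)‖ ≤ ρ := by
    intro w hw
    rw [norm_mul, Complex.norm_exp, hρ, sub_eq_add_neg, Real.rpow_add (by linarith),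
      ← Real.sqrt_eq_rpow, Real.rpow_def_of_pos (by linarith)]
    simp only [Complex.re_ofReal_mul, Complex.neg_re]
    gcongr
    exact Real.le_sqrt_of_sq_le (h4 w hw)
  have h6 : ∀ w ∈ Ω, 1 - w * Complex.exp (a * -s) ≠ 0 := by
    intro w hw h0
    have := h5 w hw
    rw [← sub_eq_zero.1 h0, norm_one] at this
    linarith
  have h7 : Lfun χ s ≠ 0 := by
    rw [Lfun_eq h2]
    refine Multiset.prod_ne_zero fun h0 => ?_
    obtain ⟨w, hw, h0⟩ := Multiset.mem_map.1 h0
    exact h6 w hw h0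
  refine ⟨h7, fun J => ?_⟩
  have h8 := hasDerivAt_prod Ω a s h6
  rw [← funext (Lfun_eq h2), ← Lfun_eq h2] at h8
  rw [logDeriv_apply, h8.deriv, mul_div_cancel_left₀ _ h7, ← mul_add, norm_mul,
    Complex.norm_real, Real.norm_of_nonneg ha0]
  refine mul_le_mul_of_nonneg_left ?_ ha0
  simp only [h3 _ (Nat.succ_ne_zero _), neg_mul, sum_neg_distrib, ← sub_eq_add_neg]
  refine (expand_sum Ω _ hρ1 hρ0 h5 J).trans ?_
  have : 0 < 1 - ρ := by linarith
  gcongr

theorem upper {σ : ℝ} (h1 : 1 / 2 < σ) (h2 : σ < 1) : ∃ C : ℝ, 0 < C ∧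
    ∀ (k : ℕ) (χ : F[X] → ℂ), IsArchChar k χ → ¬ IsPrincipal χ → ∀ s : ℂ, s.re = σ →
      ‖logDeriv (Lfun χ) s‖ ≤ C * (k : ℝ) ^ (2 - 2 * σ) := by
  have hq : (1 : ℝ) < Fintype.card F := by exact_mod_cast Fintype.one_lt_card
  set q : ℝ := (Fintype.card F : ℝ) with hqd
  set ρ := q ^ (1 / 2 - σ) with hρ
  set τ := q ^ (1 - σ) with hτ
  have hρ1 : 0 < 1 - ρ := sub_pos.2 (Real.rpow_lt_one_of_one_lt_of_neg hq (by linarith))
  have hτ1 : 0 < τ - 1 := sub_pos.2 (Real.one_lt_rpow hq (by linarith))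
  have ha0 : 0 < Real.log q := Real.log_pos hq
  refine ⟨Real.log q * (1 / (1 - ρ) + τ / (τ - 1)), by positivity, fun k χ h hn s hs => ?_⟩
  have hk : k ≠ 0 := by
    rintro rfl
    have := AA_eq_zero h hn le_rfl
    rw [AA_zero h] at this
    exact one_ne_zero this
  have hk0 : (0 : ℝ) < k := by positivity
  set J := Nat.log (Fintype.card F) (k ^ 2) with hJ
  have hJ1 : q ^ J ≤ (k : ℝ) ^ 2 := by
    rw [hqd]; exact_mod_cast Nat.pow_log_le_self _ (pow_ne_zero 2 hk)
  have hJ2 : (k : ℝ) ^ 2 ≤ q ^ (J + 1) := by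
    rw [hqd]; exact_mod_cast (Nat.lt_pow_succ_log_self Fintype.one_lt_card _).le
  have h3 := (approx h hn (hs ▸ h1)).2 J
  rw [hs] at h3
  have h4 : k * ρ ^ (J + 1) ≤ (k : ℝ) ^ (2 - 2 * σ) := by
    rw [hρ, ← Real.rpow_natCast, ← Real.rpow_mul (by linarith), mul_comm (1 / 2 - σ),
      Real.rpow_mul (by linarith), Real.rpow_natCast]
    calc _ ≤ k * ((k : ℝ) ^ 2) ^ (1 / 2 - σ) := mul_le_mul_of_nonneg_left
          (Real.rpow_le_rpow_of_nonpos (by positivity) hJ2 (by linarith)) hk0.le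
      _ = _ := by
        rw [← Real.rpow_natCast, ← Real.rpow_mul hk0.le, mul_comm, ← Real.rpow_add_one hk0.ne']
        congr 1
        push_cast
        ring
  have h5 : τ ^ J ≤ (k : ℝ) ^ (2 - 2 * σ) := by
    rw [hτ, ← Real.rpow_natCast, ← Real.rpow_mul (by linarith), mul_comm (1 - σ),
      Real.rpow_mul (by linarith), Real.rpow_natCast]
    calc _ ≤ ((k : ℝ) ^ 2) ^ (1 - σ) := Real.rpow_le_rpow (by positivity) hJ1 (by linarith)
      _ = _ := by
        rw [← Real.rpow_natCast, ← Real.rpow_mul hk0.le]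
        congr 1
        push_cast
        ring
  have h6 : ‖∑ j ∈ range J, SS χ (j + 1) * Complex.exp (Real.log q * -s) ^ (j + 1)‖ ≤
      τ / (τ - 1) * (k : ℝ) ^ (2 - 2 * σ) := by
    calc _ ≤ ∑ j ∈ range J, τ * τ ^ j := by
          refine (norm_sum_le _ _).trans (sum_le_sum fun j _ => ?_)
          rw [norm_mul, norm_pow, Complex.norm_exp, ← pow_succ', hτ, sub_eq_add_neg,
            Real.rpow_add (by linarith), Real.rpow_one, mul_pow,
            Real.rpow_def_of_pos (by linarith)]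
          simp only [Complex.re_ofReal_mul, Complex.neg_re, hs]
          gcongr
          exact norm_SS_le h (Nat.succ_ne_zero j)
      _ = τ / (τ - 1) * (τ ^ J - 1) := by
          rw [← mul_sum, geom_sum_eq (by linarith)]
          ring
      _ ≤ _ := by
          gcongr
          linarith
  calc _ ≤ _ := norm_le_add_norm_add _ (Real.log q *
        ∑ j ∈ range J, SS χ (j + 1) * Complex.exp (Real.log q * -s) ^ (j + 1))
    _ ≤ Real.log q * ((k : ℝ) ^ (2 - 2 * σ) / (1 - ρ)) +
        Real.log q * (τ / (τ - 1) * (k : ℝ) ^ (2 - 2 * σ)) := by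
      refine add_le_add (h3.trans ?_) ?_
      · rw [← mul_div_assoc]
        gcongr
      · rw [norm_mul, Complex.norm_real, Real.norm_of_nonneg ha0.le]
        gcongr
    _ = _ := by ring

end Pool.Agent.MP_d232b3_nt
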