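import Mathlib
import Pool.Agent.MP_d232b3_nt.Expand

/- A character that is trivial on all norms from a large extension, and the lower bound. -/

set_option autoImplicit false

namespace Pool.Agent.MP_d232b3_nt

open Polynomial Finset
open scoped Classical

variable {F : Type*} [Field F] [Fintype F]

/-- The `m`-th power sum of the roots. -/
noncomputable def ps (m : ℕ) (f : F[X]) : KK F :=
  ((f.map (algebraMap F (KK F))).roots.map (· ^ m)).sum

omit [Fintype F] in
theorem coeff_TT {m : ℕ} (hm : m ≠ 0) (f : F[X]) :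
    PowerSeries.coeff m (TT (f.map (algebraMap F (KK F))).roots) = -ps m f := by
  simp [TT, ps, hm]

omit [Fintype F] in
theorem ps_mul (m : ℕ) {f g : F[X]} (hf : f.Monic) (hg : g.Monic) :
    ps m (f * g) = ps m f + ps m g := by
  rw [ps, Polynomial.map_mul, roots_mul (mul_ne_zero (hf.map _).ne_zero (hg.map _).ne_zero),
    Multiset.map_add, Multiset.sum_add, ps, ps]

omit [Fintype F] in
theorem PP_roots {f : F[X]} (hf : f.Monic) : PP (f.map (algebraMap F (KK F))).roots =
    ((f.map (algebraMap F (KK F))).reverse : (KK F)[X]) := by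
  rw [← coe_reverse_prod, prod_multiset_X_sub_C_of_monic_of_roots_card_eq (hf.map _)
    IsAlgClosed.card_roots_eq_natDegree]

omit [Fintype F] in
theorem ps_congr {k m : ℕ} (hm : m ≠ 0) (hmk : m ≤ k) {f g : F[X]} (hf : f.Monic) (hg : g.Monic)
    (h : (f - g).degree + k < f.degree) : ps m f = ps m g := by
  by_cases h0 : f = g
  · rw [h0]
  have h1 : (f - g).natDegree + k < f.natDegree := by
    rw [degree_eq_natDegree (sub_ne_zero.2 h0), degree_eq_natDegree hf.ne_zero] at h
    exact_mod_cast h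
  have h2 : g.natDegree = f.natDegree := by
    rw [← sub_sub_cancel f g]
    exact natDegree_sub_eq_left_of_natDegree_lt (by omega)
  have h3 : PowerSeries.X ^ (k + 1) ∣ PP (f.map (algebraMap F (KK F))).roots -
      PP (g.map (algebraMap F (KK F))).roots := by
    rw [PP_roots hf, PP_roots hg, PowerSeries.X_pow_dvd_iff]
    intro l hl
    rw [map_sub, coeff_coe, coeff_coe, coeff_reverse, coeff_reverse, hf.natDegree_map,
      hg.natDegree_map, h2, revAt_le (by omega), coeff_map, coeff_map, ← map_sub, ← coeff_sub,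
      coeff_eq_zero_of_natDegree_lt (by omega), map_zero]
  have h4 := PowerSeries.X_pow_dvd_iff.1 (TT_congr h3) m (by omega)
  rw [map_sub, coeff_TT hm, coeff_TT hm, sub_eq_zero] at h4
  exact neg_injective h4

omit [Fintype F] in
theorem ps_binomial {k : ℕ} (hk : k ≠ 0) (c : F) {m : ℕ} (hm : m ≠ 0) (hmk : m ≤ k) :
    ps m (X ^ k + C c) = if m = k then -(k * algebraMap F (KK F) c) else 0 := by
  have h1 := X_deriv_PP ((X ^ k + C c : F[X]).map (algebraMap F (KK F))).roots
  have h0 : (X ^ k : (KK F)[X]).reverse = 1 := by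
    rw [← mul_one (X ^ k), reverse_X_pow_mul, ← C_1, reverse_C]
  have h2 : PP ((X ^ k + C c : F[X]).map (algebraMap F (KK F))).roots =
      1 + PowerSeries.X ^ k * PowerSeries.C (algebraMap F (KK F) c) := by
    rw [PP_roots (monic_X_pow_add_C c hk), Polynomial.map_add, Polynomial.map_pow, map_X, map_C,
      reverse_add_C, natDegree_X_pow, h0, Polynomial.coe_add, Polynomial.coe_mul,
      Polynomial.coe_pow, Polynomial.coe_one, coe_C, coe_X, mul_comm]
  have h3 := congrArg (PowerSeries.coeff m) h1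
  obtain ⟨m, rfl⟩ := Nat.exists_eq_add_one_of_ne_zero hm
  rw [h2, add_mul, one_mul, map_add (PowerSeries.coeff _), coeff_TT hm, mul_assoc,
    PowerSeries.coeff_X_pow_mul', PowerSeries.coeff_succ_X_mul, PowerSeries.coeff_derivative,
    map_add, PowerSeries.coeff_mul_C, PowerSeries.coeff_X_pow, PowerSeries.coeff_one] at h3
  split_ifs with h4
  · subst h4
    simp [TT] at h3
    rw [← neg_eq_iff_eq_neg, ← h3]
    push_cast
    ring
  · simpa [h4, show ¬ k ≤ m + 1 by omega] using h3

theorem sum_shift {A : Type*} [AddCommGroup A] (y : ℕ → A) {n : ℕ} (h : ∀ l, y (l + n) = y l)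
    (i : ℕ) : ∑ l ∈ range n, y (l + i) = ∑ l ∈ range n, y l := by
  induction i with
  | zero => rfl
  | succ i ih =>
    have h1 := sum_range_succ (fun l => y (l + i)) n
    have h2 := h i
    rw [sum_range_succ', ih, zero_add, add_comm n, h2, add_left_inj] at h1
    rw [← h1]
    exact sum_congr rfl fun l _ => by rw [add_assoc, add_comm i]

theorem ps_cc {i j : ℕ} {x : KK F} (hx : x ^ Fintype.card F ^ (i + j) = x) :
    ps (Fintype.card F ^ i + 1) (cc x (i + j)) = ps (Fintype.card F ^ j + 1) (cc x (i + j)) := by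
  set q := Fintype.card F
  have h1 : ∀ a, ps (q ^ a + 1) (cc x (i + j)) =
      ∑ l ∈ range (i + j), x ^ q ^ (l + a) * x ^ q ^ l := by
    intro a
    rw [ps, map_cc hx, roots_multiset_prod_X_sub_C, orb, Multiset.map_map]
    simp only [Function.comp, pow_succ, pow_add, pow_mul]
    rfl
  have h2 : ∀ l, x ^ q ^ (l + (i + j)) = x ^ q ^ l := fun l => by
    rw [add_comm, pow_add, pow_mul, hx]
  rw [h1, h1, ← sum_shift (fun l => x ^ q ^ (l + j) * x ^ q ^ l) (fun l => by
    rw [add_right_comm, h2, h2]) i]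
  exact sum_congr rfl fun l _ => by rw [add_assoc, h2, mul_comm]

theorem exists_char (i : ℕ) {k : ℕ} (hk : Fintype.card F ^ (i + 1) + 1 ≤ k) :
    ∃ χ : F[X] → ℂ, IsArchChar k χ ∧ ¬ IsPrincipal χ ∧
      SS χ (i + (i + 1)) = (Fintype.card F : ℂ) ^ (i + (i + 1)) := by
  obtain ⟨ψ, hψ⟩ := (AddChar.exists_apply_ne_zero (a := (1 : F))).2 one_ne_zero
  obtain ⟨lam, hlam⟩ := (Algebra.linearMap F (KK F)).exists_leftInverse_of_injective
    (LinearMap.ker_eq_bot.2 (algebraMap F (KK F)).injective)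
  have hl : ∀ c, lam (algebraMap F (KK F) c) = c := fun c => LinearMap.congr_fun hlam c
  set q := Fintype.card F with hq
  have hlt : q ^ i < q ^ (i + 1) := Nat.pow_lt_pow_right Fintype.one_lt_card (by omega)
  refine ⟨fun f => ψ (lam (ps (q ^ i + 1) f - ps (q ^ (i + 1) + 1) f)), ⟨?_, ?_, ?_⟩, ?_, ?_⟩
  · intro f g hf hg
    rw [ps_mul _ hf hg, ps_mul _ hf hg, add_sub_add_comm, map_add, AddChar.map_add_eq_mul]
  · intro f _
    exact AddChar.norm_apply _ _
  · intro f g hf hg h
    rw [ps_congr (by omega) (by omega) hf hg h, ps_congr (m := q ^ (i + 1) + 1) (by omega) hk hf hg h]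
  · rintro ⟨θ, hθ⟩
    have h1 : ∀ c : F, ψ c = θ ^ (q ^ (i + 1) + 1) := by
      intro c
      have := hθ _ (monic_X_pow_add_C c (n := q ^ (i + 1) + 1) (by omega))
      have hc : ((q ^ (i + 1) + 1 : ℕ) : KK F) = 1 := by
        rw [← map_natCast (algebraMap F (KK F))]
        simp [hq]
      simp only at this
      rwa [natDegree_X_pow_add_C, ps_binomial (by omega) c (by omega) (by omega),
        ps_binomial (by omega) c (by omega) le_rfl, if_neg (by omega), if_pos rfl, hc, one_mul,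
        zero_sub, neg_neg, hl] at this
    exact hψ (by rw [h1 1, ← h1 0, AddChar.map_zero_eq_one])
  · rw [SS, sum_congr rfl (g := fun _ => 1), sum_const, card_VV (by omega)]
    · simp [hq]
    · intro x hx
      rw [ps_cc ((mem_VV (by omega)).1 hx), sub_self, map_zero, AddChar.map_zero_eq_one]

theorem fourier_pick (c : ℕ → ℂ) {J n : ℕ} (hn : n < J) :
    ∃ t < J, ‖c n‖ ≤ ‖∑ j ∈ range J, c j * (Complex.exp (2 * Real.pi * Complex.I / J) ^ t) ^ (j + 1)‖ := by
  have hJ : J ≠ 0 := by omega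
  set ζ := Complex.exp (2 * Real.pi * Complex.I / J) with hζ
  have hp : IsPrimitiveRoot ζ J := Complex.isPrimitiveRoot_exp J hJ
  have h1 : ‖ζ‖ = 1 := hp.norm'_eq_one hJ
  have h2 : ∑ t ∈ range J, (ζ ^ t) ^ (J - 1 - n) * ∑ j ∈ range J, c j * (ζ ^ t) ^ (j + 1) =
      J * c n := by
    simp only [mul_sum]
    rw [sum_comm, sum_eq_single_of_mem n (mem_range.2 hn)]
    · rw [sum_congr rfl (g := fun _ => c n), sum_const, card_range, nsmul_eq_mul]
      intro t _
      rw [mul_left_comm, ← pow_add, show J - 1 - n + (n + 1) = J by omega, ← pow_mul, mul_comm t,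
        pow_mul, hp.pow_eq_one, one_pow, mul_one]
    · intro j hj hjn
      rw [mem_range] at hj
      have h3 : ζ ^ (J - 1 - n + (j + 1)) ≠ 1 := by
        rw [Ne, hp.pow_eq_one_iff_dvd]
        rintro ⟨a, ha⟩
        rcases a with _ | _ | a
        · omega
        · omega
        · have : J * (a + 1 + 1) = J * a + J + J := by ring
          omega
      have h4 := mul_neg_geom_sum (ζ ^ (J - 1 - n + (j + 1))) J
      rw [← pow_mul, mul_comm _ J, pow_mul, hp.pow_eq_one, one_pow, sub_self,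
        mul_eq_zero_iff_left (sub_ne_zero.2 h3.symm)] at h4
      rw [← mul_zero (c j), ← h4, mul_sum]
      refine sum_congr rfl fun t _ => ?_
      rw [mul_left_comm, ← pow_add, ← pow_mul, ← pow_mul, mul_comm t]
  by_contra hc
  push Not at hc
  have h3 := congrArg norm h2
  rw [norm_mul, Complex.norm_natCast] at h3
  have h4 := (norm_sum_le _ _).trans_lt (sum_lt_sum_of_nonempty (nonempty_range_iff.2 hJ)
    (f := fun t => ‖(ζ ^ t) ^ (J - 1 - n) * ∑ j ∈ range J, c j * (ζ ^ t) ^ (j + 1)‖)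
    (g := fun _ => ‖c n‖) fun t ht => by
      rw [norm_mul, norm_pow, norm_pow, h1, one_pow, one_pow, one_mul]
      exact hc t (mem_range.1 ht))
  rw [h3, sum_const, card_range, nsmul_eq_mul] at h4
  exact lt_irrefl _ h4

theorem lower {σ : ℝ} (h1 : 1 / 2 < σ) (h2 : σ < 1) : ∃ c : ℝ, 0 < c ∧
    ∀ k : ℕ, Fintype.card F < k → ∃ (χ : F[X] → ℂ) (s : ℂ), IsArchChar k χ ∧ ¬ IsPrincipal χ ∧
      s.re = σ ∧ c * (k : ℝ) ^ (2 - 2 * σ) ≤ ‖logDeriv (Lfun χ) s‖ := by
  have hq : (1 : ℝ) < Fintype.card F := by exact_mod_cast Fintype.one_lt_card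
  set q : ℝ := (Fintype.card F : ℝ) with hqd
  set ρ := q ^ (1 / 2 - σ) with hρ
  have hρ1 : ρ < 1 := Real.rpow_lt_one_of_one_lt_of_neg hq (by linarith)
  have hρ0 : 0 ≤ ρ := by positivity
  have ha0 : 0 < Real.log q := Real.log_pos hq
  refine ⟨Real.log q / 2 * (1 / (4 * q ^ 3)) ^ (1 - σ), by positivity, fun k hk => ?_⟩
  obtain ⟨i, hi⟩ := Nat.exists_eq_succ_of_ne_zero (Nat.log_pos Fintype.one_lt_card
    (show Fintype.card F ≤ k - 1 by omega)).ne'
  have hk2 : 2 ≤ k := by have := Fintype.one_lt_card (α := F); omega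
  have hi1 := Nat.pow_log_le_self (Fintype.card F) (show k - 1 ≠ 0 by omega)
  have hi2 := Nat.lt_pow_succ_log_self (Fintype.one_lt_card (α := F)) (k - 1)
  rw [hi] at hi1 hi2
  obtain ⟨χ, h3, h4, h5⟩ := exists_char (F := F) i (k := k) (by
    rw [Nat.succ_eq_add_one] at hi1; omega)
  have h6 : Filter.Tendsto (fun J : ℕ => k * (ρ ^ (J + 1) / (1 - ρ))) Filter.atTop (nhds 0) := by
    have := (((tendsto_pow_atTop_nhds_zero_of_lt_one hρ0 hρ1).comp
      (Filter.tendsto_add_atTop_nat 1)).div_const (1 - ρ)).const_mul (k : ℝ)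
    simpa using this
  obtain ⟨J, hJ1, hJ2⟩ := ((h6.eventually_le_const (show (0 : ℝ) < 1 / 2 by norm_num)).and
    (Filter.eventually_gt_atTop (i + i))).exists
  obtain ⟨t, -, ht⟩ := fourier_pick
    (fun j => SS χ (j + 1) * Complex.exp (Real.log q * -σ) ^ (j + 1)) hJ2
  set s : ℂ := σ - ((t * (2 * Real.pi / J) / Real.log q : ℝ) : ℂ) * Complex.I with hs
  have hre : s.re = σ := by
    rw [hs, Complex.sub_re, Complex.ofReal_re, Complex.re_ofReal_mul, Complex.I_re]
    ring
  have hz : Complex.exp (Real.log q * -s) =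
      Complex.exp (Real.log q * -σ) * Complex.exp (2 * Real.pi * Complex.I / J) ^ t := by
    rw [← Complex.exp_nat_mul, ← Complex.exp_add, hs]
    congr 1
    have : (Real.log q : ℂ) ≠ 0 := Complex.ofReal_ne_zero.2 ha0.ne'
    generalize Real.log q = a at this ⊢
    push_cast
    field_simp
    ring
  refine ⟨χ, s, h3, h4, hre, ?_⟩
  have h7 := (approx h3 h4 (hre ▸ h1)).2 J
  rw [hre, hz] at h7
  simp only [mul_pow, ← mul_assoc] at h7
  have h8 : ‖SS χ (i + i + 1) * Complex.exp (Real.log q * -σ) ^ (i + i + 1)‖ =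
      (q ^ (i + i + 1)) ^ (1 - σ) := by
    rw [add_assoc, h5, ← mul_pow, norm_pow, norm_mul, Complex.norm_natCast, Complex.norm_exp,
      ← Real.rpow_natCast q, ← Real.rpow_mul (by linarith), mul_comm _ (1 - σ),
      Real.rpow_mul (by linarith), Real.rpow_natCast, sub_eq_add_neg, Real.rpow_add (by linarith),
      Real.rpow_one, Real.rpow_def_of_pos (by linarith)]
    simp only [Complex.re_ofReal_mul, Complex.neg_re, Complex.ofReal_re]
    rfl
  rw [h8] at ht
  have h9 : (1 : ℝ) ≤ (q ^ (i + i + 1)) ^ (1 - σ) :=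
    Real.one_le_rpow (one_le_pow₀ hq.le) (by linarith)
  have h10 : (1 / (4 * q ^ 3)) ^ (1 - σ) * (k : ℝ) ^ (2 - 2 * σ) ≤ (q ^ (i + i + 1)) ^ (1 - σ) := by
    rw [show 2 - 2 * σ = (2 : ℕ) * (1 - σ) by push_cast; ring, Real.rpow_mul (by positivity),
      Real.rpow_natCast, ← Real.mul_rpow (by positivity) (by positivity)]
    refine Real.rpow_le_rpow (by positivity) ?_ (by linarith)
    have h11 : (k : ℝ) ≤ 2 * q ^ (i + 2) := by
      rw [hqd]
      have : k ≤ 2 * Fintype.card F ^ (i + 2) := by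
        change k - 1 < Fintype.card F ^ (i + 2) at hi2
        omega
      exact_mod_cast this
    rw [one_div, inv_mul_le_iff₀ (by positivity)]
    calc _ ≤ (2 * q ^ (i + 2)) ^ 2 := by gcongr
      _ = _ := by ring
  have h11 := norm_le_add_norm_add' (logDeriv (Lfun χ) s) (Real.log q * ∑ j ∈ range J,
    SS χ (j + 1) * Complex.exp (Real.log q * -σ) ^ (j + 1) *
      (Complex.exp (2 * Real.pi * Complex.I / J) ^ t) ^ (j + 1))
  rw [norm_mul, Complex.norm_real, Real.norm_of_nonneg ha0.le] at h11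
  have h12 := mul_le_mul_of_nonneg_left ht ha0.le
  have h13 := mul_le_mul_of_nonneg_left hJ1 ha0.le
  have h14 := mul_le_mul_of_nonneg_left h10 ha0.le
  have h15 := mul_le_mul_of_nonneg_left h9 ha0.le
  rw [← mul_assoc] at h13
  linarith

end Pool.Agent.MP_d232b3_nt
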